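import Mathlib

/-!
# Arithmetic of the example

`om = exp (2 π i √2)` is badly approximable, and `nu = exp (2 π i θ)` is approximated
exponentially well, but not better, by infinitely many powers of `om`.
-/

open Finset Filter Topology Complex

namespace Helper43.Brj

/-! ### Distance to integers -/

theorem norm_exp_sub_one (x : ℝ) :
    ‖Complex.exp (2 * Real.pi * I * x) - 1‖ = 2 * |Real.sin (Real.pi * x)| := by
  have h1 : (2 * Real.pi * I * x : ℂ) = I * ((2 * Real.pi * x : ℝ) : ℂ) := by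
    push_cast; ring
  rw [h1, Complex.norm_exp_I_mul_ofReal_sub_one]
  rw [show (2 * Real.pi * x / 2 : ℝ) = Real.pi * x by ring]
  rw [Real.norm_eq_abs, abs_mul]
  simp

theorem norm_exp_sub_one_ge {x δ : ℝ} (h : ∀ k : ℤ, δ ≤ |x - k|) :
    4 * δ ≤ ‖Complex.exp (2 * Real.pi * I * x) - 1‖ := by
  set y : ℝ := x - round x with hy
  have h1 : Complex.exp (2 * Real.pi * I * x) = Complex.exp (2 * Real.pi * I * y) := by
    have : (2 * Real.pi * I * x : ℂ) = 2 * Real.pi * I * y + (round x : ℤ) * (2 * Real.pi * I) := by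
      rw [hy]; push_cast; ring
    rw [this, Complex.exp_add, Complex.exp_int_mul_two_pi_mul_I, mul_one]
  rw [h1, norm_exp_sub_one]
  have h2 : |y| ≤ 1 / 2 := abs_sub_round x
  have h3 : |Real.sin (Real.pi * y)| = Real.sin (Real.pi * |y|) := by
    rcases abs_cases y with ⟨e, _⟩ | ⟨e, hneg⟩
    · rw [e]
      apply abs_of_nonneg
      apply Real.sin_nonneg_of_nonneg_of_le_pi
      · rw [← e]; positivity
      · rw [e] at h2; nlinarith [Real.pi_pos]
    · rw [e, mul_neg, Real.sin_neg]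
      apply abs_of_nonpos
      rw [e] at h2
      apply Real.sin_nonpos_of_nonpos_of_neg_pi_le
      · nlinarith [Real.pi_pos]
      · nlinarith [Real.pi_pos]
  rw [h3]
  have h4 : 2 / Real.pi * (Real.pi * |y|) ≤ Real.sin (Real.pi * |y|) := by
    apply Real.mul_le_sin (by positivity)
    nlinarith [Real.pi_pos, abs_nonneg y]
  have h5 : 2 / Real.pi * (Real.pi * |y|) = 2 * |y| := by
    field_simp
  have h6 : δ ≤ |y| := h (round x)
  linarith

theorem norm_exp_sub_one_le (x : ℝ) :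
    ‖Complex.exp (2 * Real.pi * I * x) - 1‖ ≤ 2 * Real.pi * |x| := by
  rw [norm_exp_sub_one]
  have h1 : |Real.sin (Real.pi * x)| ≤ |Real.pi * x| := Real.abs_sin_le_abs
  rw [abs_mul, abs_of_pos Real.pi_pos] at h1
  linarith

/-- `√2` is badly approximable. -/
theorem sqrt_two_bad {b : ℕ} (hb : 1 ≤ b) (k : ℤ) : 1 / (4 * b : ℝ) ≤ |b * √2 - k| := by
  have hb' : (1 : ℝ) ≤ b := by exact_mod_cast hb
  by_contra hcon
  rw [not_le] at hcon
  have hs : (√2) ^ 2 = 2 := Real.sq_sqrt (by norm_num)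
  have hs1 : √2 < 1.5 := by
    rw [Real.sqrt_lt' (by norm_num)]; norm_num
  have hs0 : 0 < √2 := by positivity
  have h1 : (1 : ℝ) ≤ |(2 * (b : ℝ) ^ 2 - (k : ℝ) ^ 2)| := by
    have : (2 * (b : ℤ) ^ 2 - k ^ 2) ≠ 0 := by
      intro h
      have h2 : Irrational √2 := irrational_sqrt_two
      apply h2
      refine ⟨|k| / b, ?_⟩
      have h3 : ((k : ℝ)) ^ 2 = 2 * (b : ℝ) ^ 2 := by
        have : (k : ℤ) ^ 2 = 2 * (b : ℤ) ^ 2 := by linarith
        exact_mod_cast this
      have h4 : (|(k : ℝ)| / b) ^ 2 = 2 := by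
        rw [div_pow, sq_abs, h3]; field_simp
      push_cast
      rw [← Real.sqrt_sq (show (0 : ℝ) ≤ |(k : ℝ)| / b by positivity), h4]
    have h5 : (1 : ℤ) ≤ |2 * (b : ℤ) ^ 2 - k ^ 2| := Int.one_le_abs this
    have h6 : ((1 : ℤ) : ℝ) ≤ ((|2 * (b : ℤ) ^ 2 - k ^ 2| : ℤ) : ℝ) := by exact_mod_cast h5
    push_cast at h6
    exact h6
  have h2 : |(2 * (b : ℝ) ^ 2 - (k : ℝ) ^ 2)| = |b * √2 - k| * |b * √2 + k| := by
    rw [← abs_mul]; congr 1; nlinarith
  have h3 : |b * √2 - k| < 1 / 4 := by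
    refine hcon.trans_le ?_
    rw [div_le_div_iff₀ (by positivity) (by norm_num)]; linarith
  have h4 : |b * √2 + k| ≤ 4 * b := by
    rw [abs_lt] at h3
    rw [abs_le]
    constructor <;> nlinarith
  have h5 : |b * √2 - k| * |b * √2 + k| < 1 := by
    calc |b * √2 - k| * |b * √2 + k| ≤ |b * √2 - k| * (4 * b) := by gcongr
      _ < 1 / (4 * b) * (4 * b) := by gcongr
      _ = 1 := by field_simp
  linarith

/-- The rotation. -/
noncomputable def om : ℂ := Complex.exp (2 * Real.pi * I * (√2 : ℝ))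

theorem om_pow (b : ℕ) : om ^ b = Complex.exp (2 * Real.pi * I * ((b * √2 : ℝ) : ℂ)) := by
  rw [om, ← Complex.exp_nat_mul]
  congr 1
  push_cast
  ring

theorem norm_exp_real (x : ℝ) : ‖Complex.exp (2 * Real.pi * I * x)‖ = 1 := by
  have : (2 * Real.pi * I * x : ℂ) = ((2 * Real.pi * x : ℝ) : ℂ) * I := by push_cast; ring
  rw [this, Complex.norm_exp_ofReal_mul_I]

theorem norm_om : ‖om‖ = 1 := norm_exp_real _

theorem om_sub_one {b : ℕ} (hb : 1 ≤ b) : 1 / (b : ℝ) ≤ ‖om ^ b - 1‖ := by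
  rw [om_pow]
  have := norm_exp_sub_one_ge (x := b * √2) (δ := 1 / (4 * b)) (fun k => sqrt_two_bad hb k)
  refine le_trans (le_of_eq ?_) this
  field_simp

/-! ### The Pell sequences -/

/-- `(3 - 2√2)^s = P s - Q s √2`. -/
def pell : ℕ → ℕ × ℕ
  | 0 => (1, 0)
  | s + 1 => (3 * (pell s).1 + 4 * (pell s).2, 2 * (pell s).1 + 3 * (pell s).2)

noncomputable def vv : ℝ := 3 - 2 * √2

theorem vv_pos : 0 < vv := by
  have hs1 : √2 < 1.5 := by
    rw [Real.sqrt_lt' (by norm_num)]; norm_num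
  unfold vv; linarith

theorem vv_lt : vv < 1 / 5 := by
  have hs1 : 1.4 < √2 := by
    rw [Real.lt_sqrt (by norm_num)]; norm_num
  unfold vv; linarith

theorem vv_gt : 1 / 8 < vv := by
  have hs1 : √2 < 1.42 := by
    rw [Real.sqrt_lt' (by norm_num)]; norm_num
  unfold vv; linarith

theorem vv_pow (s : ℕ) : vv ^ s = (pell s).1 - (pell s).2 * √2 := by
  have hs : (√2) * √2 = 2 := Real.mul_self_sqrt (by norm_num)
  induction s with
  | zero => simp [pell]
  | succ s ih =>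
    rw [pow_succ, ih, vv, pell]
    push_cast
    linear_combination (2 * ((pell s).2 : ℝ)) * hs

theorem pell_le (s : ℕ) : (pell s).1 ≤ 8 ^ s ∧ 2 * (pell s).2 ≤ 8 ^ s := by
  induction s with
  | zero => simp [pell]
  | succ s ih =>
    simp only [pell, pow_succ]
    omega

theorem pell_pos {s : ℕ} (hs : 1 ≤ s) : 1 ≤ (pell s).2 := by
  have h1 : ∀ s, 1 ≤ (pell s).1 := by
    intro s
    induction s with
    | zero => simp [pell]
    | succ s ih => simp only [pell]; omega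
  obtain ⟨t, rfl⟩ : ∃ t, s = t + 1 := ⟨s - 1, by omega⟩
  have := h1 t
  simp only [pell]; omega

/-- The sequence of exponents. -/
def ms : ℕ → ℕ
  | 0 => 4
  | i + 1 => ms i + (pell (ms i)).2

theorem ms_ge (i : ℕ) : 4 ≤ ms i := by
  induction i with
  | zero => simp [ms]
  | succ i ih => simp only [ms]; omega

theorem ms_lt (i : ℕ) : ms i < ms (i + 1) := by
  have := pell_pos (s := ms i) (by have := ms_ge i; omega)
  simp only [ms]; omega

theorem ms_strictMono : StrictMono ms := strictMono_nat_of_lt_succ ms_lt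

theorem ms_succ_le (i : ℕ) : ms (i + 1) ≤ 8 ^ ms i := by
  have h1 := (pell_le (ms i)).2
  have h2 : ∀ m : ℕ, 2 * m ≤ 8 ^ m := by
    intro m
    induction m with
    | zero => simp
    | succ m ih => rw [pow_succ]; have : 1 ≤ 8 ^ m := Nat.one_le_pow _ _ (by norm_num); omega
  have h3 := h2 (ms i)
  simp only [ms]; omega

theorem exists_ms {b : ℕ} (hb : 1 ≤ b) : ∃ i, b ≤ ms i ∧ ms i ≤ 8 ^ b := by
  have hex : ∃ i, b ≤ ms i := ⟨b, ms_strictMono.le_apply⟩
  classical
  let i := Nat.find hex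
  have hi : b ≤ ms i := Nat.find_spec hex
  refine ⟨i, hi, ?_⟩
  rcases Nat.eq_zero_or_pos i with h0 | hpos
  · rw [h0]
    have : (8 : ℕ) ^ 1 ≤ 8 ^ b := Nat.pow_le_pow_right (by norm_num) hb
    simp only [ms]; omega
  · obtain ⟨t, ht⟩ : ∃ t, i = t + 1 := ⟨i - 1, by omega⟩
    have h1 : ¬ b ≤ ms t := Nat.find_min hex (by omega)
    rw [ht]
    refine (ms_succ_le t).trans ?_
    exact Nat.pow_le_pow_right (by norm_num) (by omega)

theorem summable_vv_ms (i : ℕ) : Summable fun l => vv ^ ms (i + l) := by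
  have h1 : Summable fun l : ℕ => vv ^ l := summable_geometric_of_lt_one vv_pos.le
    (by have := vv_lt; linarith)
  refine Summable.of_nonneg_of_le (fun l => by have := vv_pos; positivity) (fun l => ?_) h1
  refine pow_le_pow_of_le_one vv_pos.le (by have := vv_lt; linarith) ?_
  exact (ms_strictMono.le_apply (x := l)).trans (ms_strictMono.monotone (by omega))

/-- The remainders. -/
noncomputable def rr (i : ℕ) : ℝ := ∑' l, vv ^ ms (i + l)

theorem rr_eq (i : ℕ) : rr i = vv ^ ms i + rr (i + 1) := by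
  unfold rr
  rw [(summable_vv_ms i).tsum_eq_zero_add]
  simp only [add_zero]
  congr 1
  apply tsum_congr
  intro l
  congr 2
  omega

theorem rr_ge (i : ℕ) : vv ^ ms i ≤ rr i := by
  rw [rr_eq]
  have : 0 ≤ rr (i + 1) := tsum_nonneg fun l => by have := vv_pos; positivity
  linarith

theorem rr_le (i : ℕ) : rr i ≤ 2 * vv ^ ms i := by
  have h1 : Summable fun l : ℕ => vv ^ l := summable_geometric_of_lt_one vv_pos.le
    (by have := vv_lt; linarith)
  have h2 : ∀ l, vv ^ ms (i + l) ≤ vv ^ ms i * vv ^ l := by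
    intro l
    rw [← pow_add]
    refine pow_le_pow_of_le_one vv_pos.le (by have := vv_lt; linarith) ?_
    have : ∀ l, ms i + l ≤ ms (i + l) := by
      intro l
      induction l with
      | zero => simp
      | succ l ih => have := ms_lt (i + l); rw [← add_assoc i l 1]; omega
    exact this l
  have h3 : rr i ≤ ∑' l, vv ^ ms i * vv ^ l :=
    (summable_vv_ms i).tsum_le_tsum h2 (h1.mul_left _)
  rw [tsum_mul_left, tsum_geometric_of_lt_one vv_pos.le (by have := vv_lt; linarith)] at h3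
  have h4 : (1 - vv)⁻¹ ≤ 2 := by
    rw [inv_le_comm₀ (by have := vv_lt; linarith) (by norm_num)]
    have := vv_lt; linarith
  have h5 : 0 ≤ vv ^ ms i := by have := vv_pos; positivity
  nlinarith

/-- The angle. -/
noncomputable def th : ℝ := 4 * √2 - rr 0

theorem ms_th (i : ℕ) : ∃ k : ℤ, (ms i : ℝ) * √2 - th = k + rr i := by
  induction i with
  | zero => exact ⟨0, by simp only [ms, th]; push_cast; ring⟩
  | succ i ih =>
    obtain ⟨k, hk⟩ := ih
    refine ⟨k + (pell (ms i)).1, ?_⟩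
    have h1 := vv_pow (ms i)
    have h2 := rr_eq i
    simp only [ms]
    push_cast
    linarith

noncomputable def nu : ℂ := Complex.exp (2 * Real.pi * I * (th : ℝ))

theorem norm_nu : ‖nu‖ = 1 := norm_exp_real _

theorem norm_om_pow_sub_nu (b : ℕ) :
    ‖om ^ b - nu‖ = ‖Complex.exp (2 * Real.pi * I * ((b * √2 - th : ℝ) : ℂ)) - 1‖ := by
  have h1 : om ^ b - nu = nu * (Complex.exp (2 * Real.pi * I * ((b * √2 - th : ℝ) : ℂ)) - 1) := by
    rw [mul_sub, mul_one, om_pow, nu, ← Complex.exp_add]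
    congr 2
    push_cast; ring
  rw [h1, norm_mul, norm_nu, one_mul]

theorem norm_nu_om_pow_sub_one (b : ℕ) :
    ‖nu * om ^ b - 1‖ = ‖Complex.exp (2 * Real.pi * I * ((b * √2 + th : ℝ) : ℂ)) - 1‖ := by
  have h1 : nu * om ^ b = Complex.exp (2 * Real.pi * I * ((b * √2 + th : ℝ) : ℂ)) := by
    rw [om_pow, nu, ← Complex.exp_add]
    congr 1
    push_cast; ring
  rw [h1]

theorem aux_pow {m : ℕ} (hm : 4 ≤ m) : 32 * (m : ℝ) * vv ^ m ≤ 1 := by
  have h1 : (32 * m : ℝ) ≤ 5 ^ m := by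
    have : 32 * m ≤ 5 ^ m := by
      induction m, hm using Nat.le_induction with
      | base => norm_num
      | succ m hm ih => rw [pow_succ]; omega
    exact_mod_cast this
  have h2 : vv ^ m ≤ (1 / 5) ^ m := by
    gcongr
    · exact vv_pos.le
    · exact vv_lt.le
  have h3 : (0 : ℝ) ≤ vv ^ m := by have := vv_pos; positivity
  calc 32 * (m : ℝ) * vv ^ m ≤ 5 ^ m * (1 / 5) ^ m := by gcongr
    _ = 1 := by rw [← mul_pow]; norm_num

theorem rr_small (i : ℕ) : rr i ≤ 1 / (16 * ms i) := by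
  have h1 := rr_le i
  have h2 := aux_pow (ms_ge i)
  have h3 : (0 : ℝ) < ms i := by have := ms_ge i; exact_mod_cast (by omega : 0 < ms i)
  rw [le_div_iff₀ (by positivity)]
  nlinarith

/-- Lower bound for `|ω^b - ν|`. -/
theorem om_sub_nu_ge {b : ℕ} (hb : 1 ≤ b) : 1 / (64 : ℝ) ^ b ≤ ‖om ^ b - nu‖ := by
  obtain ⟨i, hi1, hi2⟩ := exists_ms hb
  obtain ⟨k0, hk0⟩ := ms_th i
  have hmpos : (4 : ℝ) ≤ ms i := by exact_mod_cast ms_ge i
  have hr1 := rr_ge i
  have hr2 := rr_small i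
  have hr0 : 0 < rr i := lt_of_lt_of_le (by have := vv_pos; positivity) hr1
  have h8 : (ms i : ℝ) ≤ 8 ^ b := by exact_mod_cast hi2
  have h64 : (8 : ℝ) ^ b * 8 ≤ 64 ^ b := by
    have : (64 : ℝ) ^ b = 8 ^ b * 8 ^ b := by rw [← mul_pow]; norm_num
    rw [this]
    gcongr
    calc (8 : ℝ) = 8 ^ 1 := by norm_num
      _ ≤ 8 ^ b := by gcongr; norm_num
  have hq : rr i ≤ 1 / 64 := by
    refine hr2.trans ?_
    rw [div_le_div_iff₀ (by positivity) (by norm_num)]; linarith
  rw [norm_om_pow_sub_nu]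
  rcases eq_or_lt_of_le hi1 with heq | hlt
  · -- `b = ms i`
    have h1 : ∀ k : ℤ, vv ^ b ≤ |(b * √2 - th) - k| := by
      intro k
      rw [heq, hk0]
      have : (k0 : ℝ) + rr i - k = rr i + ((k0 - k : ℤ) : ℝ) := by push_cast; ring
      rw [this]
      rcases eq_or_ne (k0 - k) 0 with h0 | h0
      · rw [h0]; simp only [Int.cast_zero, add_zero]
        rw [abs_of_pos hr0]; exact hr1
      · have h2 : (1 : ℝ) ≤ |((k0 - k : ℤ) : ℝ)| := by
          have := Int.one_le_abs h0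
          exact_mod_cast this
        have h3 : |((k0 - k : ℤ) : ℝ)| ≤ |rr i + ((k0 - k : ℤ) : ℝ)| + |rr i| := by
          have := abs_sub (rr i + ((k0 - k : ℤ) : ℝ)) (rr i)
          simpa using this
        rw [abs_of_pos hr0] at h3
        linarith
    have h2 := norm_exp_sub_one_ge h1
    refine le_trans ?_ h2
    have h3 : (1 / 64 : ℝ) ^ b ≤ vv ^ b := by
      gcongr
      have := vv_gt; linarith
    rw [one_div_pow] at h3
    have h4 : (0 : ℝ) < vv ^ b := by have := vv_pos; positivity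
    linarith
  · -- `b < ms i`
    have h1 : ∀ k : ℤ, 1 / (8 * (8 : ℝ) ^ b) ≤ |(b * √2 - th) - k| := by
      intro k
      have e1 : (b * √2 - th) - k =
          -(((ms i - b : ℕ) : ℝ) * √2 - ((k0 - k : ℤ) : ℝ)) + rr i := by
        rw [Nat.cast_sub hi1]; push_cast; linarith
      have e2 := sqrt_two_bad (b := ms i - b) (by omega) (k0 - k)
      have e3 : 1 / (4 * (ms i : ℝ)) ≤ 1 / (4 * ((ms i - b : ℕ) : ℝ)) := by
        have : (0 : ℝ) < ((ms i - b : ℕ) : ℝ) := by exact_mod_cast (by omega : 0 < ms i - b)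
        have h5 : ((ms i - b : ℕ) : ℝ) ≤ ms i := by exact_mod_cast Nat.sub_le _ _
        gcongr
      rw [e1]
      have e4 : |((ms i - b : ℕ) : ℝ) * √2 - ((k0 - k : ℤ) : ℝ)| ≤
          |-(((ms i - b : ℕ) : ℝ) * √2 - ((k0 - k : ℤ) : ℝ)) + rr i| + |rr i| := by
        have := abs_sub (-(((ms i - b : ℕ) : ℝ) * √2 - ((k0 - k : ℤ) : ℝ)) + rr i) (rr i)
        rw [add_sub_cancel_right, abs_neg] at this
        exact this
      rw [abs_of_pos hr0] at e4
      have e5 : 1 / (8 * (8 : ℝ) ^ b) ≤ 1 / (8 * ms i) := by gcongr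
      have e6 : 1 / (8 * (ms i : ℝ)) + 1 / (16 * ms i) ≤ 1 / (4 * ms i) := by
        rw [div_add_div _ _ (by positivity) (by positivity),
          div_le_div_iff₀ (by positivity) (by positivity)]
        nlinarith
      linarith
    have h2 := norm_exp_sub_one_ge h1
    refine le_trans ?_ h2
    have h3 : 1 / (64 : ℝ) ^ b ≤ 1 / (8 ^ b * 8) := by gcongr
    have h4 : (0 : ℝ) < 1 / (8 * 8 ^ b) := by positivity
    have h5 : (1 : ℝ) / (8 ^ b * 8) = 1 / (8 * 8 ^ b) := by rw [mul_comm]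
    linarith

/-- Lower bound for `|ν ω^b - 1|`. -/
theorem nu_om_sub_one_ge {b : ℕ} (hb : 1 ≤ b) : 1 / (64 : ℝ) ^ b ≤ ‖nu * om ^ b - 1‖ := by
  obtain ⟨i, hi1, hi2⟩ := exists_ms hb
  obtain ⟨k0, hk0⟩ := ms_th i
  have hmpos : (4 : ℝ) ≤ ms i := by exact_mod_cast ms_ge i
  have hr1 := rr_ge i
  have hr2 := rr_small i
  have hr0 : 0 < rr i := lt_of_lt_of_le (by have := vv_pos; positivity) hr1
  have h8 : (ms i : ℝ) ≤ 8 ^ b := by exact_mod_cast hi2
  have h64 : (8 : ℝ) ^ b * 8 ≤ 64 ^ b := by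
    have : (64 : ℝ) ^ b = 8 ^ b * 8 ^ b := by rw [← mul_pow]; norm_num
    rw [this]
    gcongr
    calc (8 : ℝ) = 8 ^ 1 := by norm_num
      _ ≤ 8 ^ b := by gcongr; norm_num
  rw [norm_nu_om_pow_sub_one]
  have h1 : ∀ k : ℤ, 1 / (16 * (8 : ℝ) ^ b) ≤ |(b * √2 + th) - k| := by
    intro k
    have e1 : (b * √2 + th) - k =
        (((ms i + b : ℕ) : ℝ) * √2 - ((k0 + k : ℤ) : ℝ)) - rr i := by
      push_cast; linarith
    have e2 := sqrt_two_bad (b := ms i + b) (by omega) (k0 + k)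
    have e3 : 1 / (8 * (ms i : ℝ)) ≤ 1 / (4 * ((ms i + b : ℕ) : ℝ)) := by
      have h5 : ((ms i + b : ℕ) : ℝ) ≤ 2 * ms i := by
        have : ms i + b ≤ 2 * ms i := by omega
        exact_mod_cast this
      have h6 : (0 : ℝ) < ((ms i + b : ℕ) : ℝ) := by exact_mod_cast (by omega : 0 < ms i + b)
      rw [div_le_div_iff₀ (by positivity) (by positivity)]
      linarith
    rw [e1]
    have e4 : |((ms i + b : ℕ) : ℝ) * √2 - ((k0 + k : ℤ) : ℝ)| ≤
        |(((ms i + b : ℕ) : ℝ) * √2 - ((k0 + k : ℤ) : ℝ)) - rr i| + |rr i| := by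
      have := abs_add_le ((((ms i + b : ℕ) : ℝ) * √2 - ((k0 + k : ℤ) : ℝ)) - rr i) (rr i)
      rw [sub_add_cancel] at this
      exact this
    rw [abs_of_pos hr0] at e4
    have e5 : 1 / (16 * (8 : ℝ) ^ b) ≤ 1 / (16 * ms i) := by gcongr
    have e6 : 1 / (16 * (ms i : ℝ)) + 1 / (16 * ms i) = 1 / (8 * ms i) := by
      field_simp; norm_num
    linarith
  have h2 := norm_exp_sub_one_ge h1
  refine le_trans ?_ h2
  have h3 : 1 / (64 : ℝ) ^ b ≤ 1 / (8 ^ b * 8) := by gcongr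
  have h4 : (1 : ℝ) / (8 ^ b * 8) ≤ 4 * (1 / (16 * 8 ^ b)) := by
    rw [show (4 : ℝ) * (1 / (16 * 8 ^ b)) = 1 / (4 * 8 ^ b) by field_simp; norm_num]
    have : (0 : ℝ) < 8 ^ b := by positivity
    rw [div_le_div_iff₀ (by positivity) (by positivity)]
    nlinarith
  linarith

/-- Upper bound along the sequence. -/
theorem om_sub_nu_le (i : ℕ) : ‖om ^ ms i - nu‖ ≤ 1 / (2 : ℝ) ^ ms i := by
  rw [norm_om_pow_sub_nu]
  obtain ⟨k0, hk0⟩ := ms_th i
  have hr0 : 0 < rr i := lt_of_lt_of_le (by have := vv_pos; positivity) (rr_ge i)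
  rw [hk0]
  have h1 : Complex.exp (2 * Real.pi * I * ((k0 + rr i : ℝ) : ℂ)) =
      Complex.exp (2 * Real.pi * I * (rr i : ℝ)) := by
    have : (2 * Real.pi * I * ((k0 + rr i : ℝ) : ℂ) : ℂ) =
        2 * Real.pi * I * (rr i : ℝ) + (k0 : ℤ) * (2 * Real.pi * I) := by
      push_cast; ring
    rw [this, Complex.exp_add, Complex.exp_int_mul_two_pi_mul_I, mul_one]
  rw [h1]
  refine (norm_exp_sub_one_le _).trans ?_
  rw [abs_of_pos hr0]
  have h2 := rr_le i
  have h3 : vv ^ ms i ≤ (1 / 5) ^ ms i := by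
    gcongr
    · exact vv_pos.le
    · exact vv_lt.le
  have h4 : Real.pi < 3.15 := Real.pi_lt_d2
  have h5 : (16 : ℝ) ≤ (5 / 2) ^ ms i := by
    calc (16 : ℝ) ≤ (5 / 2) ^ 4 := by norm_num
      _ ≤ (5 / 2) ^ ms i := by
        gcongr
        · norm_num
        · exact ms_ge i
  calc 2 * Real.pi * rr i ≤ 2 * 3.15 * (2 * (1 / 5) ^ ms i) := by
        have := Real.pi_pos
        gcongr
        linarith
    _ ≤ 16 * (1 / 5) ^ ms i := by
        have : (0 : ℝ) < (1 / 5) ^ ms i := by positivity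
        nlinarith
    _ ≤ (5 / 2) ^ ms i * (1 / 5) ^ ms i := by gcongr
    _ = 1 / 2 ^ ms i := by rw [← mul_pow, ← one_div_pow]; norm_num

end Helper43.Brj
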