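import Mathlib

/-!
# Binary recursion and the Brjuno counting lemma
-/

open Finset

namespace Helper43.Brj

/-- `rec τ n = τ n + max_{a + b = n} (rec τ a + rec τ b)` for `n ≥ 2`, and `0` for `n ≤ 1`. -/
def brec (τ : ℕ → ℕ) (n : ℕ) : ℕ :=
  if n ≤ 1 then 0 else
    τ n + (Finset.univ : Finset (Fin (n - 1))).sup
      (fun a => brec τ (a.1 + 1) + brec τ (n - 1 - a.1))
termination_by n
decreasing_by
  · have := a.2; omega
  · have := a.2; omega

theorem brec_le_one (τ : ℕ → ℕ) {n : ℕ} (hn : n ≤ 1) : brec τ n = 0 := by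
  rw [brec, if_pos hn]

theorem brec_add (τ : ℕ → ℕ) {a b : ℕ} (ha : 1 ≤ a) (hb : 1 ≤ b) :
    brec τ a + brec τ b + τ (a + b) ≤ brec τ (a + b) := by
  conv_rhs => rw [brec, if_neg (by omega)]
  have h := Finset.le_sup (f := fun c : Fin (a + b - 1) =>
    brec τ (c.1 + 1) + brec τ (a + b - 1 - c.1))
    (Finset.mem_univ (⟨a - 1, by omega⟩ : Fin (a + b - 1)))
  simp only at h
  rw [show a - 1 + 1 = a by omega, show a + b - 1 - (a - 1) = b by omega] at h
  omega

theorem brec_exists (τ : ℕ → ℕ) {n : ℕ} (hn : 2 ≤ n) :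
    ∃ a b, 1 ≤ a ∧ 1 ≤ b ∧ a + b = n ∧ brec τ n = τ n + (brec τ a + brec τ b) := by
  rw [brec, if_neg (by omega)]
  obtain ⟨c, _, hc⟩ := Finset.exists_mem_eq_sup (Finset.univ : Finset (Fin (n - 1)))
    ⟨⟨0, by omega⟩, Finset.mem_univ _⟩
    (fun a => brec τ (a.1 + 1) + brec τ (n - 1 - a.1))
  refine ⟨c.1 + 1, n - 1 - c.1, by omega, ?_, ?_, ?_⟩
  · have := c.2; omega
  · have := c.2; omega
  · rw [hc]

/-- Brjuno's counting lemma. -/
theorem count_aux (S : ℕ → Prop) [DecidablePred S] {g : ℝ} (hg : 0 < g)
    (h1 : ∀ n, S n → g ≤ n) (h2 : ∀ n m, S n → S m → m < n → g ≤ (n : ℝ) - m) (m : ℕ) :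
    ((brec (fun n => if S n then 1 else 0) m : ℕ) : ℝ) ≤ max 0 (2 * m / g - 1) ∧
    ∀ n, S n → m < n → (n : ℝ) - g < m →
      ((brec (fun n => if S n then 1 else 0) m : ℕ) : ℝ) ≤ 2 * n / g - 2 := by
  set F := brec (fun n => if S n then 1 else 0) with hF
  induction m using Nat.strong_induction_on with | _ m ih
  have hkey : ∀ n : ℕ, S n → (0 : ℝ) ≤ 2 * n / g - 2 := by
    intro n hn
    have := h1 n hn
    have h3 : 1 ≤ n / g := by rwa [le_div_iff₀ hg, one_mul]
    have h4 : 2 * n / g = 2 * (n / g) := by ring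
    rw [h4]; linarith
  by_cases hm : m ≤ 1
  · have : F m = 0 := brec_le_one _ hm
    rw [this]
    refine ⟨by simp, fun n hn _ _ => by simpa using hkey n hn⟩
  obtain ⟨a, b, ha, hb, hab, hFm⟩ := brec_exists (fun n => if S n then 1 else 0)
    (n := m) (by omega)
  rw [← hF] at hFm
  -- split bound : for any `n` with `S n`, `m ≤ n`, `n - g < m` ; bound `F a + F b`
  have hsplit : ∀ n : ℕ, S n → m ≤ n → (n : ℝ) - g < m →
      ((F a : ℕ) : ℝ) + F b ≤ 2 * n / g - 2 := by
    intro n hn hmn hng
    have hab' : (a : ℝ) + b = m := by exact_mod_cast hab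
    have hmn' : (m : ℝ) ≤ n := by exact_mod_cast hmn
    have key : ∀ x y : ℕ, 1 ≤ x → 1 ≤ y → x + y = m → 2 * (y : ℝ) / g - 1 ≤ 0 →
        ((F x : ℕ) : ℝ) + F y ≤ 2 * n / g - 2 := by
      intro x y hx hy hxy hneg
      have e1 : ((F y : ℕ) : ℝ) ≤ 0 := by
        have := (ih y (by omega)).1
        rwa [max_eq_left hneg] at this
      have e2 : ((F x : ℕ) : ℝ) ≤ 2 * n / g - 2 := by
        by_cases hx2 : (n : ℝ) - g < x
        · exact (ih x (by omega)).2 n hn (by omega) hx2
        · rw [not_lt] at hx2
          refine (ih x (by omega)).1.trans (max_le (hkey n hn) ?_)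
          have : (x : ℝ) / g ≤ (n - g) / g := by gcongr
          rw [sub_div, div_self hg.ne'] at this
          have h4 : 2 * (x : ℝ) / g = 2 * (x / g) := by ring
          have h5 : 2 * (n : ℝ) / g = 2 * (n / g) := by ring
          rw [h4, h5]; linarith
      linarith
    by_cases hA : 2 * (a : ℝ) / g - 1 ≤ 0
    · have := key b a hb ha (by omega) hA
      linarith
    by_cases hB : 2 * (b : ℝ) / g - 1 ≤ 0
    · exact key a b ha hb hab hB
    rw [not_le] at hA hB
    have e1 := (ih a (by omega)).1
    have e2 := (ih b (by omega)).1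
    rw [max_eq_right hA.le] at e1
    rw [max_eq_right hB.le] at e2
    have e3 : 2 * (a : ℝ) / g + 2 * b / g = 2 * m / g := by rw [← hab']; ring
    have e4 : 2 * (m : ℝ) / g ≤ 2 * n / g := by gcongr
    linarith
  constructor
  · by_cases hS : S m
    · have h3 := hsplit m hS le_rfl (by linarith)
      rw [hFm, if_pos hS]
      push_cast
      refine le_trans ?_ (le_max_right _ _)
      linarith
    · rw [hFm, if_neg hS]
      push_cast
      have hab' : (a : ℝ) + b = m := by exact_mod_cast hab
      have e1 := (ih a (by omega)).1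
      have e2 := (ih b (by omega)).1
      have e3 : 2 * (a : ℝ) / g + 2 * b / g = 2 * m / g := by rw [← hab']; ring
      have hap : (0 : ℝ) ≤ 2 * a / g := by positivity
      have hbp : (0 : ℝ) ≤ 2 * b / g := by positivity
      rcases le_total (2 * (a : ℝ) / g - 1) 0 with hA | hA
      · rw [max_eq_left hA] at e1
        rcases le_total (2 * (b : ℝ) / g - 1) 0 with hB | hB
        · rw [max_eq_left hB] at e2
          refine le_trans ?_ (le_max_left _ _)
          linarith
        · rw [max_eq_right hB] at e2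
          refine le_trans ?_ (le_max_right _ _)
          linarith
      · rw [max_eq_right hA] at e1
        refine le_trans ?_ (le_max_right _ _)
        rcases le_total (2 * (b : ℝ) / g - 1) 0 with hB | hB
        · rw [max_eq_left hB] at e2
          linarith
        · rw [max_eq_right hB] at e2
          linarith
  · intro n hn hmn hng
    have hS : ¬ S m := fun hS => by
      have := h2 n m hn hS hmn
      linarith
    rw [hFm, if_neg hS]
    push_cast
    have := hsplit n hn hmn.le hng
    linarith

theorem count (S : ℕ → Prop) [DecidablePred S] {g : ℝ} (hg : 0 < g)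
    (h1 : ∀ n, S n → g ≤ n) (h2 : ∀ n m, S n → S m → m < n → g ≤ (n : ℝ) - m) (m : ℕ) :
    ((brec (fun n => if S n then 1 else 0) m : ℕ) : ℝ) ≤ 2 * m / g := by
  refine (count_aux S hg h1 h2 m).1.trans (max_le (by positivity) (by linarith))

/-- Sum over the blocks of a composition is controlled by `brec`. -/
theorem brec_list (τ : ℕ → ℕ) (l : List ℕ) (hl : ∀ x ∈ l, 1 ≤ x) :
    (l.map (brec τ)).sum ≤ brec τ l.sum := by
  induction l with
  | nil => simp
  | cons x l ih =>
    have hx := hl x (by simp)
    have ih' := ih fun y hy => hl y (by simp [hy])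
    rcases Nat.eq_zero_or_pos l.sum with h0 | hpos
    · rw [h0] at ih'
      simp only [List.map_cons, List.sum_cons, h0, add_zero]
      have : brec τ 0 = 0 := brec_le_one _ (by omega)
      omega
    · have := brec_add τ hx hpos
      simp only [List.map_cons, List.sum_cons]
      omega

theorem brec_composition (τ : ℕ → ℕ) {n : ℕ} (c : Composition n) (hc : 1 < c.length) :
    ∑ i, brec τ (c.blocksFun i) + τ n ≤ brec τ n := by
  have h1 : ∑ i, brec τ (c.blocksFun i) = (c.blocks.map (brec τ)).sum := by
    rw [← List.sum_ofFn]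
    congr 1
    have : c.blocks = List.ofFn c.blocksFun := (c.ofFn_blocksFun).symm
    rw [this, List.map_ofFn]
    rfl
  rw [h1]
  have hlen : c.blocks.length = c.length := rfl
  have hsum := c.blocks_sum
  have hpos : ∀ x ∈ c.blocks, 1 ≤ x := fun x hx => c.one_le_blocks hx
  rcases hb : c.blocks with _ | ⟨x, l⟩
  · rw [hb] at hlen; simp at hlen; omega
  · rw [hb] at hlen hsum hpos
    have hl : l ≠ [] := by
      rintro rfl
      simp at hlen; omega
    have hlpos : 1 ≤ l.sum := by
      obtain ⟨y, l', rfl⟩ := List.exists_cons_of_ne_nil hl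
      have := hpos y (by simp)
      simp; omega
    have h2 := brec_list τ l fun y hy => hpos y (by simp [hy])
    have h3 := brec_add τ (hpos x (by simp)) hlpos
    simp only [List.map_cons, List.sum_cons] at hsum ⊢
    rw [hsum] at h3
    omega

/-- Counting separated sets. -/
theorem card_separated (T : Finset ℕ) (n : ℕ) (hT : ∀ b ∈ T, b ≤ n) {g : ℕ} (hg : 1 ≤ g)
    (hsep : ∀ a ∈ T, ∀ b ∈ T, a < b → g ≤ b - a) : T.card ≤ n / g + 1 := by
  rw [← Finset.card_range (n / g + 1)]
  refine Finset.card_le_card_of_injOn (fun b => b / g) ?_ ?_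
  · intro b hb
    simp only [Finset.coe_range, Set.mem_Iio]
    exact Nat.lt_succ_of_le (Nat.div_le_div_right (hT b hb))
  · intro a ha b hb hab
    simp only at hab
    by_contra hne
    rcases lt_or_gt_of_ne hne with h | h
    · have h1 := hsep a ha b hb h
      have h2 : a / g < b / g := by
        have : a + g ≤ b := by omega
        calc a / g < a / g + 1 := Nat.lt_succ_self _
          _ = (a + g) / g := by rw [Nat.add_div_right _ (by omega)]
          _ ≤ b / g := Nat.div_le_div_right this
      omega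
    · have h1 := hsep b hb a ha h
      have h2 : b / g < a / g := by
        have : b + g ≤ a := by omega
        calc b / g < b / g + 1 := Nat.lt_succ_self _
          _ = (b + g) / g := by rw [Nat.add_div_right _ (by omega)]
          _ ≤ a / g := Nat.div_le_div_right this
      omega

end Helper43.Brj
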