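import Mathlib

/-!
# Linearization of germs of holomorphic maps: the analytic core

We work on `Fin N → ℂ`.  Words `w : Fin n → Fin N` index the values of an `n`-multilinear map on
the standard basis.  The (non symmetrised) formal linearization is defined by recursion on the
length of words, and its convergence is reduced to a purely combinatorial weight function `D` on
words.
-/

open Finset Filter Topology

namespace Helper43.Brj

variable {N : ℕ}

/-- The diagonal linear map with eigenvalues `lam`. -/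
noncomputable def diagL (lam : Fin N → ℂ) : (Fin N → ℂ) →L[ℂ] (Fin N → ℂ) :=
  ContinuousLinearMap.pi fun i => lam i • ContinuousLinearMap.proj i

@[simp] theorem diagL_apply (lam : Fin N → ℂ) (v : Fin N → ℂ) (i : Fin N) :
    diagL lam v i = lam i * v i := by
  simp [diagL]

/-- The family of basis vectors attached to a word. -/
def ew {n : ℕ} (w : Fin n → Fin N) : Fin n → (Fin N → ℂ) := fun i => Pi.single (w i) 1

/-- The monomial attached to a word. -/
noncomputable def monom {n : ℕ} (w : Fin n → Fin N) :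
    ContinuousMultilinearMap ℂ (fun _ : Fin n => (Fin N → ℂ)) ℂ :=
  (ContinuousMultilinearMap.mkPiAlgebra ℂ (Fin n) ℂ).compContinuousLinearMap
    (fun i => ContinuousLinearMap.proj (w i))

theorem monom_apply {n : ℕ} (w : Fin n → Fin N) (v : Fin n → (Fin N → ℂ)) :
    monom w v = ∏ i, v i (w i) := by
  simp [monom]

theorem monom_ew {n : ℕ} (w w' : Fin n → Fin N) :
    monom w (ew w') = if w = w' then 1 else 0 := by
  rw [monom_apply]
  split_ifs with h
  · subst h
    simp [ew]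
  · obtain ⟨i, hi⟩ := Function.ne_iff.1 h
    exact Finset.prod_eq_zero (Finset.mem_univ i) (by simp [ew, hi])

theorem norm_monom_le {n : ℕ} (w : Fin n → Fin N) : ‖monom w‖ ≤ 1 := by
  refine ContinuousMultilinearMap.opNorm_le_bound zero_le_one fun v => ?_
  rw [monom_apply, one_mul, norm_prod]
  exact Finset.prod_le_prod (fun _ _ => norm_nonneg _) fun i _ => norm_le_pi_norm _ _

/-- The vector obtained by dividing by the divisors. -/
noncomputable def solveVec (lam : Fin N → ℂ) {n : ℕ}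
    (A : ContinuousMultilinearMap ℂ (fun _ : Fin n => (Fin N → ℂ)) (Fin N → ℂ))
    (w : Fin n → Fin N) : Fin N → ℂ :=
  fun j => (∏ i, lam (w i) - lam j)⁻¹ * A (ew w) j

/-- Division by the divisors. -/
noncomputable def solve (lam : Fin N → ℂ) {n : ℕ}
    (A : ContinuousMultilinearMap ℂ (fun _ : Fin n => (Fin N → ℂ)) (Fin N → ℂ)) :
    ContinuousMultilinearMap ℂ (fun _ : Fin n => (Fin N → ℂ)) (Fin N → ℂ) :=
  ∑ w : Fin n → Fin N, (monom w).smulRight (solveVec lam A w)

theorem solve_ew (lam : Fin N → ℂ) {n : ℕ}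
    (A : ContinuousMultilinearMap ℂ (fun _ : Fin n => (Fin N → ℂ)) (Fin N → ℂ))
    (w : Fin n → Fin N) : solve lam A (ew w) = solveVec lam A w := by
  simp [solve, monom_ew, ite_smul]

theorem norm_solve_le (lam : Fin N → ℂ) {n : ℕ}
    (A : ContinuousMultilinearMap ℂ (fun _ : Fin n => (Fin N → ℂ)) (Fin N → ℂ))
    {B : ℝ} (hB : ∀ w, ‖solve lam A (ew w)‖ ≤ B) : ‖solve lam A‖ ≤ (N : ℝ) ^ n * B := by
  have h1 : ‖solve lam A‖ ≤ ∑ w : Fin n → Fin N, ‖(monom w).smulRight (solveVec lam A w)‖ :=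
    norm_sum_le _ _
  refine h1.trans ?_
  have h2 : ∀ w : Fin n → Fin N, ‖(monom w).smulRight (solveVec lam A w)‖ ≤ B := by
    intro w
    have h3 : ‖(monom w).smulRight (solveVec lam A w)‖ ≤ ‖monom w‖ * ‖solveVec lam A w‖ := by
      refine ContinuousMultilinearMap.opNorm_le_bound (by positivity) fun v => ?_
      rw [ContinuousMultilinearMap.smulRight_apply, norm_smul]
      have := (monom w).le_opNorm v
      calc _ ≤ (‖monom w‖ * ∏ i, ‖v i‖) * ‖solveVec lam A w‖ := by gcongr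
        _ = _ := by ring
    have h4 := hB w
    rw [solve_ew] at h4
    calc _ ≤ 1 * B := h3.trans (mul_le_mul (norm_monom_le w) h4 (norm_nonneg _) zero_le_one)
      _ = B := one_mul _
  calc _ ≤ ∑ _w : Fin n → Fin N, B := Finset.sum_le_sum fun w _ => h2 w
    _ = _ := by simp [Finset.card_univ]

/-- Truncation of a formal multilinear series. -/
noncomputable def trunc (p : FormalMultilinearSeries ℂ (Fin N → ℂ) (Fin N → ℂ)) (n : ℕ) :
    FormalMultilinearSeries ℂ (Fin N → ℂ) (Fin N → ℂ) := fun k => if k < n then p k else 0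

/-- The formal linearization. -/
noncomputable def lin (lam : Fin N → ℂ) (q : FormalMultilinearSeries ℂ (Fin N → ℂ) (Fin N → ℂ)) :
    FormalMultilinearSeries ℂ (Fin N → ℂ) (Fin N → ℂ)
  | 0 => 0
  | 1 => (continuousMultilinearCurryFin1 ℂ (Fin N → ℂ) (Fin N → ℂ)).symm
      (ContinuousLinearMap.id ℂ (Fin N → ℂ))
  | n + 2 =>
    let p : FormalMultilinearSeries ℂ (Fin N → ℂ) (Fin N → ℂ) :=
      fun k => if k < n + 2 then lin lam q k else 0
    solve lam ((q.comp p) (n + 2))

variable (lam : Fin N → ℂ) (q : FormalMultilinearSeries ℂ (Fin N → ℂ) (Fin N → ℂ))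

theorem lin_zero : lin lam q 0 = 0 := by rw [lin]

theorem lin_one : lin lam q 1 = (continuousMultilinearCurryFin1 ℂ (Fin N → ℂ) (Fin N → ℂ)).symm
      (ContinuousLinearMap.id ℂ (Fin N → ℂ)) := by rw [lin]

theorem lin_add_two (n : ℕ) :
    lin lam q (n + 2) = solve lam ((q.comp (trunc (lin lam q) (n + 2))) (n + 2)) := by
  rw [lin]; rfl

/-- The right hand side of the homological equation. -/
noncomputable def rhs {n : ℕ} (w : Fin n → Fin N) : Fin N → ℂ :=
  ∑ c ∈ ({c : Composition n | 1 < c.length}.toFinset : Finset (Composition n)),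
    q c.length ((lin lam q).applyComposition c (ew w))

theorem blocksFun_lt {n : ℕ} (hn : 0 < n) {c : Composition n} (hc : 1 < c.length) (i : Fin c.length) :
    c.blocksFun i < n := by
  have : c ≠ Composition.single n hn := by
    intro h
    rw [Composition.eq_single_iff_length] at h
    omega
  rw [Composition.ne_single_iff] at this
  exact this i

theorem comp_trunc_ew {n : ℕ} (w : Fin (n + 2) → Fin N) :
    (q.comp (trunc (lin lam q) (n + 2))) (n + 2) (ew w) = rhs lam q w := by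
  rw [FormalMultilinearSeries.comp_rightInv_aux1 (by omega)]
  have h0 : (q 1 fun _ => (trunc (lin lam q) (n + 2)) (n + 2) (ew w)) = 0 := by
    have : (trunc (lin lam q) (n + 2)) (n + 2) = 0 := by simp [trunc]
    rw [this]
    exact (q 1).map_coord_zero (0 : Fin 1) rfl
  rw [h0, add_zero, rhs]
  refine sum_congr rfl fun c hc => ?_
  congr 1
  ext1 i
  simp only [FormalMultilinearSeries.applyComposition]
  have hc' : 1 < c.length := by simpa using hc
  have : (trunc (lin lam q) (n + 2)) (c.blocksFun i) = lin lam q (c.blocksFun i) := by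
    simp [trunc, blocksFun_lt (by omega) hc' i]
  rw [this]

theorem lin_add_two_ew {n : ℕ} (w : Fin (n + 2) → Fin N) (j : Fin N) :
    lin lam q (n + 2) (ew w) j = (∏ i, lam (w i) - lam j)⁻¹ * rhs lam q w j := by
  rw [lin_add_two, solve_ew, solveVec, comp_trunc_ew]

/-- The conjugacy equation at the level of formal series. -/
theorem comp_lin (h0 : ∀ v, q 0 v = 0)
    (h1 : q 1 = (continuousMultilinearCurryFin1 ℂ (Fin N → ℂ) (Fin N → ℂ)).symm (diagL lam))
    (hne : ∀ n : ℕ, 2 ≤ n → ∀ w : Fin n → Fin N, ∀ j, ∏ i, lam (w i) ≠ lam j) :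
    q.comp (lin lam q) = (lin lam q).compContinuousLinearMap (diagL lam) := by
  ext1 n
  match n with
  | 0 =>
    ext1 v
    rw [FormalMultilinearSeries.comp_coeff_zero' , h0]
    simp [FormalMultilinearSeries.compContinuousLinearMap, lin_zero]
  | 1 =>
    ext1 v
    rw [FormalMultilinearSeries.comp_coeff_one, h1]
    simp [FormalMultilinearSeries.compContinuousLinearMap_apply, lin_one]
  | n + 2 =>
    apply ContinuousMultilinearMap.toMultilinearMap_injective
    refine Module.Basis.ext_multilinear (fun _ => Pi.basisFun ℂ (Fin N)) fun w => ?_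
    have hw : (fun i : Fin (n + 2) => (Pi.basisFun ℂ (Fin N)) (w i)) = ew w := by
      ext1 i; simp [ew]
    show (q.comp (lin lam q) (n + 2)) (fun i => (Pi.basisFun ℂ (Fin N)) (w i)) =
      ((lin lam q).compContinuousLinearMap (diagL lam) (n + 2))
        (fun i => (Pi.basisFun ℂ (Fin N)) (w i))
    rw [hw, FormalMultilinearSeries.comp_rightInv_aux1 (by omega)]
    have e1 : ((lin lam q).compContinuousLinearMap (diagL lam) (n + 2)) (ew w) =
        (∏ i, lam (w i)) • lin lam q (n + 2) (ew w) := by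
      rw [FormalMultilinearSeries.compContinuousLinearMap_apply,
        ← ContinuousMultilinearMap.map_smul_univ]
      congr 1
      ext i j
      simp only [Function.comp, diagL_apply, ew, Pi.smul_apply, smul_eq_mul]
      by_cases h : j = w i
      · subst h; simp
      · simp [h]
    rw [e1, h1]
    ext j
    have e2 := lin_add_two_ew lam q w j
    have e3 : (∏ i, lam (w i) - lam j) ≠ 0 := sub_ne_zero.2 (hne _ (by omega) w j)
    have e4 : rhs lam q w j = (∏ i, lam (w i) - lam j) * lin lam q (n + 2) (ew w) j := by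
      rw [e2]; field_simp
    have e5 : (∑ c ∈ ({c : Composition (n + 2) | 1 < c.length}.toFinset :
        Finset (Composition (n + 2))),
        q c.length ((lin lam q).applyComposition c (ew w))) = rhs lam q w := rfl
    rw [e5]
    simp only [Pi.add_apply, continuousMultilinearCurryFin1_symm_apply, diagL_apply, Pi.smul_apply,
      smul_eq_mul]
    rw [e4]
    ring

/-- A weight on words controlling the small divisors. -/
structure Weight (lam : Fin N → ℂ) (D : (n : ℕ) → (Fin n → Fin N) → ℝ) : Prop where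
  pos : ∀ n w, 0 < D n w
  one : ∀ w : Fin 1 → Fin N, 1 ≤ D 1 w
  step : ∀ n, 2 ≤ n → ∀ (w : Fin n → Fin N) (c : Composition n), 1 < c.length → ∀ j,
    ∏ i, D (c.blocksFun i) (w ∘ c.embedding i) ≤ ‖∏ i, lam (w i) - lam j‖ * D n w

variable {lam} {D : (n : ℕ) → (Fin n → Fin N) → ℝ}

theorem Weight.ne (h : Weight lam D) {n : ℕ} (hn : 2 ≤ n) (w : Fin n → Fin N) (j : Fin N) :
    ∏ i, lam (w i) ≠ lam j := by
  intro he
  have h1 := h.step n hn w (Composition.ones n) (by rw [Composition.ones_length]; omega) j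
  rw [he, sub_self, norm_zero, zero_mul] at h1
  exact absurd h1 (not_le.2 (prod_pos fun i _ => h.pos _ _))

/-- The normalised size of the coefficients of length `n`. -/
noncomputable def sz (lam : Fin N → ℂ) (q : FormalMultilinearSeries ℂ (Fin N → ℂ) (Fin N → ℂ))
    (D : (n : ℕ) → (Fin n → Fin N) → ℝ) (n : ℕ) : ℝ :=
  ⨆ w : Fin n → Fin N, ‖lin lam q n (ew w)‖ / D n w

theorem sz_nonneg (h : Weight lam D) (n : ℕ) : 0 ≤ sz lam q D n :=
  Real.iSup_nonneg fun _ => div_nonneg (norm_nonneg _) (h.pos _ _).le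

theorem le_sz (h : Weight lam D) (n : ℕ) (w : Fin n → Fin N) :
    ‖lin lam q n (ew w)‖ ≤ D n w * sz lam q D n := by
  have h1 : ‖lin lam q n (ew w)‖ / D n w ≤ sz lam q D n :=
    le_ciSup (f := fun w : Fin n → Fin N => ‖lin lam q n (ew w)‖ / D n w)
      (Set.finite_range _).bddAbove w
  rwa [div_le_iff₀ (h.pos _ _), mul_comm] at h1

theorem sz_one (h : Weight lam D) : sz lam q D 1 ≤ 1 := by
  refine Real.iSup_le (fun w => ?_) zero_le_one
  rw [div_le_one (h.pos _ _)]
  refine le_trans ?_ (h.one w)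
  rw [lin_one]
  simp [ew, Pi.norm_single]

theorem sz_step (h : Weight lam D) {C r : ℝ} (hq : ∀ n, ‖q n‖ ≤ C * r ^ n)
    {n : ℕ} (hn : 2 ≤ n) :
    sz lam q D n ≤ C * ∑ c ∈ ({c : Composition n | 1 < c.length}.toFinset :
      Finset (Composition n)), r ^ c.length * ∏ i, sz lam q D (c.blocksFun i) := by
  have hCr : ∀ k : ℕ, 0 ≤ C * r ^ k := fun k => (norm_nonneg _).trans (hq k)
  have hR : 0 ≤ C * ∑ c ∈ ({c : Composition n | 1 < c.length}.toFinset :
      Finset (Composition n)), r ^ c.length * ∏ i, sz lam q D (c.blocksFun i) := by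
    rw [mul_sum]
    refine sum_nonneg fun c _ => ?_
    rw [← mul_assoc]
    exact mul_nonneg (hCr _) (prod_nonneg fun i _ => sz_nonneg q h _)
  refine Real.iSup_le (fun w => ?_) hR
  rw [div_le_iff₀ (h.pos _ _)]
  refine (pi_norm_le_iff_of_nonneg (mul_nonneg hR (h.pos _ _).le)).2 fun j => ?_
  obtain ⟨m, rfl⟩ : ∃ m, n = m + 2 := ⟨n - 2, by omega⟩
  rw [lin_add_two_ew, norm_mul, norm_inv]
  have hd : 0 < ‖∏ i, lam (w i) - lam j‖ := norm_pos_iff.2 (sub_ne_zero.2 (h.ne hn w j))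
  rw [inv_mul_le_iff₀ hd]
  have h1 : ‖rhs lam q w j‖ ≤ ∑ c ∈ ({c : Composition (m + 2) | 1 < c.length}.toFinset :
      Finset (Composition (m + 2))), (‖∏ i, lam (w i) - lam j‖ * D (m + 2) w) *
        (C * (r ^ c.length * ∏ i, sz lam q D (c.blocksFun i))) := by
    rw [rhs, Finset.sum_apply]
    refine (norm_sum_le _ _).trans (sum_le_sum fun c hc => ?_)
    have hc' : 1 < c.length := by simpa using hc
    calc ‖q c.length ((lin lam q).applyComposition c (ew w)) j‖
        ≤ ‖q c.length ((lin lam q).applyComposition c (ew w))‖ := norm_le_pi_norm _ _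
      _ ≤ ‖q c.length‖ * ∏ i, ‖(lin lam q).applyComposition c (ew w) i‖ :=
          (q c.length).le_opNorm _
      _ ≤ (C * r ^ c.length) * ∏ i, (D (c.blocksFun i) (w ∘ c.embedding i) *
            sz lam q D (c.blocksFun i)) := by
          refine mul_le_mul (hq _) (prod_le_prod (fun _ _ => norm_nonneg _) fun i _ => ?_)
            (prod_nonneg fun _ _ => norm_nonneg _) (hCr _)
          exact le_sz q h _ (w ∘ c.embedding i)
      _ = (∏ i, D (c.blocksFun i) (w ∘ c.embedding i)) *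
            ((C * r ^ c.length) * ∏ i, sz lam q D (c.blocksFun i)) := by
          rw [prod_mul_distrib]; ring
      _ ≤ (‖∏ i, lam (w i) - lam j‖ * D (m + 2) w) *
            ((C * r ^ c.length) * ∏ i, sz lam q D (c.blocksFun i)) := by
          refine mul_le_mul_of_nonneg_right (h.step _ hn w c hc' j)
            (mul_nonneg (hCr _) (prod_nonneg fun i _ => sz_nonneg q h _))
      _ = _ := by ring
  refine h1.trans (le_of_eq ?_)
  rw [← mul_sum, ← mul_sum]
  ring

theorem sum_bound (h : Weight lam D) {C r a : ℝ} (hC : 0 ≤ C) (hr : 0 ≤ r) (ha : 0 ≤ a)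
    (hq : ∀ n, ‖q n‖ ≤ C * r ^ n) {n : ℕ} (hn : 1 ≤ n) :
    ∑ k ∈ Ico 1 (n + 1), a ^ k * sz lam q D k ≤
      a + C * ∑ k ∈ Ico 2 (n + 1), (r * ∑ j ∈ Ico 1 n, a ^ j * sz lam q D j) ^ k := by
  have e1 : ∑ k ∈ Ico 1 (n + 1), a ^ k * sz lam q D k =
      a * sz lam q D 1 + ∑ k ∈ Ico 2 (n + 1), a ^ k * sz lam q D k := by
    rw [Finset.sum_eq_sum_Ico_succ_bot (by omega)]
    simp
  rw [e1]
  have e2 : a * sz lam q D 1 ≤ a := by
    simpa using mul_le_mul_of_nonneg_left (sz_one q h) ha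
  have e3 : ∑ k ∈ Ico 2 (n + 1), a ^ k * sz lam q D k ≤
      C * ∑ k ∈ Ico 2 (n + 1), a ^ k * ∑ c ∈ ({c : Composition k | 1 < c.length}.toFinset :
      Finset (Composition k)), r ^ c.length * ∏ i, sz lam q D (c.blocksFun i) := by
    rw [mul_sum]
    refine sum_le_sum fun k hk => ?_
    have := sz_step q h hq (mem_Ico.1 hk).1
    calc a ^ k * sz lam q D k ≤ a ^ k * (C * ∑ c ∈ ({c : Composition k | 1 < c.length}.toFinset :
        Finset (Composition k)), r ^ c.length * ∏ i, sz lam q D (c.blocksFun i)) := by gcongr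
      _ = _ := by ring
  have e4 := FormalMultilinearSeries.radius_right_inv_pos_of_radius_pos_aux1 n
    (fun k => sz lam q D k) (sz_nonneg q h) hr ha
  have e5 : ∀ x : ℝ, ∀ j : ℕ, r ^ j * x ^ j = (r * x) ^ j := fun x j => (mul_pow r x j).symm
  simp only [e5] at e4
  have e6 := mul_le_mul_of_nonneg_left e4 hC
  linarith

theorem sz_growth (h : Weight lam D) (hq : 0 < q.radius) :
    ∃ a : ℝ, 0 < a ∧ ∀ n, 1 ≤ n → a ^ n * sz lam q D n ≤ 2 * a := by
  obtain ⟨C, r, Cpos, rpos, ple⟩ :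
    ∃ (C r : _) (_ : 0 < C) (_ : 0 < r), ∀ n : ℕ, ‖q n‖ ≤ C * r ^ n :=
    q.le_mul_pow_of_radius_pos hq
  obtain ⟨a, apos, ha1, ha2⟩ : ∃ a : ℝ, 0 < a ∧ 8 * C * r ^ 2 * a ≤ 1 ∧ r * 2 * a ≤ 1 / 2 := by
    refine ⟨min (1 / (8 * C * r ^ 2)) (1 / (4 * r)), by positivity, ?_, ?_⟩
    · calc 8 * C * r ^ 2 * min (1 / (8 * C * r ^ 2)) (1 / (4 * r))
          ≤ 8 * C * r ^ 2 * (1 / (8 * C * r ^ 2)) := by gcongr; exact min_le_left _ _
        _ = 1 := by field_simp
    · calc r * 2 * min (1 / (8 * C * r ^ 2)) (1 / (4 * r))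
          ≤ r * 2 * (1 / (4 * r)) := by gcongr; exact min_le_right _ _
        _ = 1 / 2 := by field_simp; norm_num
  refine ⟨a, apos, ?_⟩
  let S : ℕ → ℝ := fun n => ∑ k ∈ Ico 1 n, a ^ k * sz lam q D k
  have Snn : ∀ n, 0 ≤ S n := fun n =>
    sum_nonneg fun k _ => mul_nonneg (by positivity) (sz_nonneg q h k)
  have IRec : ∀ n, 1 ≤ n → S n ≤ 2 * a := by
    apply Nat.le_induction
    · simp only [S]
      rw [Ico_eq_empty_of_le (le_refl 1), sum_empty]
      positivity
    · intro n one_le_n hn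
      have rSn : r * S n ≤ 1 / 2 :=
        calc
          r * S n ≤ r * (2 * a) := by gcongr
          _ ≤ 1 / 2 := by rwa [← mul_assoc]
      have rSn0 : 0 ≤ r * S n := mul_nonneg rpos.le (Snn n)
      calc
        S (n + 1) ≤ a + C * ∑ k ∈ Ico 2 (n + 1), (r * S n) ^ k :=
          sum_bound q h Cpos.le rpos.le apos.le ple one_le_n
        _ = a + C * (((r * S n) ^ 2 - (r * S n) ^ (n + 1)) / (1 - r * S n)) := by
          rw [geom_sum_Ico' _ (by omega)]; exact ne_of_lt (rSn.trans_lt (by norm_num))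
        _ ≤ a + C * ((r * S n) ^ 2 / (1 / 2)) := by
          gcongr
          · simp only [sub_le_self_iff]
            positivity
          · linarith only [rSn]
        _ = a + 2 * C * (r * S n) ^ 2 := by ring
        _ ≤ a + 2 * C * (r * (2 * a)) ^ 2 := by gcongr
        _ = (1 + 8 * C * r ^ 2 * a) * a := by ring
        _ ≤ (1 + 1) * a := by gcongr
        _ = 2 * a := by ring
  intro n hn
  calc a ^ n * sz lam q D n ≤ S (n + 1) := by
        refine Finset.single_le_sum (f := fun k => a ^ k * sz lam q D k)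
          (fun k _ => mul_nonneg (by positivity) (sz_nonneg q h k)) ?_
        simp; omega
    _ ≤ 2 * a := IRec (n + 1) (by omega)

theorem radius_pos (h : Weight lam D) {X : ℝ} (hX : ∀ n, 1 ≤ n → ∀ w, D n w ≤ X ^ n)
    (hq : 0 < q.radius) : 0 < (lin lam q).radius := by
  obtain ⟨a, ha, hsz⟩ := sz_growth q h hq
  -- `‖p n (ew w)‖ ≤ 2 a (X / a)^n`
  have h1 : ∀ n, 1 ≤ n → ∀ w : Fin n → Fin N, ‖lin lam q n (ew w)‖ ≤ 2 * a * (|X| / a) ^ n := by
    intro n hn w
    have e1 := le_sz q h n w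
    have e2 : sz lam q D n ≤ 2 * a / a ^ n := by
      rw [le_div_iff₀ (by positivity), mul_comm]; exact hsz n hn
    have e3 : D n w ≤ |X| ^ n := by
      refine (hX n hn w).trans ?_
      rw [← abs_pow]; exact le_abs_self _
    calc _ ≤ D n w * sz lam q D n := e1
      _ ≤ |X| ^ n * (2 * a / a ^ n) :=
        mul_le_mul e3 e2 (sz_nonneg q h n) (by positivity)
      _ = _ := by rw [div_pow]; ring
  have h2 : ∀ n, 2 ≤ n → ‖lin lam q n‖ ≤ 2 * a * ((N + 1 : ℝ) * (|X| / a + 1)) ^ n := by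
    intro n hn
    obtain ⟨m, rfl⟩ : ∃ m, n = m + 2 := ⟨n - 2, by omega⟩
    have e1 := h1 (m + 2) (by omega)
    rw [lin_add_two] at e1 ⊢
    refine (norm_solve_le lam _ e1).trans ?_
    have e4 : (N : ℝ) ^ (m + 2) ≤ (N + 1 : ℝ) ^ (m + 2) := by gcongr; linarith
    have e5 : (|X| / a) ^ (m + 2) ≤ (|X| / a + 1) ^ (m + 2) := by
      gcongr; linarith
    calc (N : ℝ) ^ (m + 2) * (2 * a * (|X| / a) ^ (m + 2))
        ≤ (N + 1 : ℝ) ^ (m + 2) * (2 * a * (|X| / a + 1) ^ (m + 2)) := by gcongr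
      _ = _ := by rw [mul_pow]; ring
  set R : ℝ := (N + 1 : ℝ) * (|X| / a + 1) with hR
  have hRpos : 0 < R := by positivity
  let ρ : NNReal := ⟨R⁻¹, by positivity⟩
  have hρ : (0 : ENNReal) < (ρ : ENNReal) := by
    rw [ENNReal.coe_pos]
    exact NNReal.coe_pos.1 (by show 0 < R⁻¹; positivity)
  refine hρ.trans_le ?_
  apply FormalMultilinearSeries.le_radius_of_eventually_le _ (2 * a)
  filter_upwards [Ici_mem_atTop 2] with n (hn : 2 ≤ n)
  calc ‖lin lam q n‖ * (ρ : ℝ) ^ n ≤ (2 * a * R ^ n) * (R⁻¹) ^ n := by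
        have : (ρ : ℝ) = R⁻¹ := rfl
        rw [this]
        gcongr
        exact h2 n hn
    _ = 2 * a := by
        rw [mul_assoc, ← mul_pow, mul_inv_cancel₀ hRpos.ne', one_pow, mul_one]

/-- **Core theorem** (diagonal form). -/
theorem core (h : Weight lam D) {X : ℝ} (hX : ∀ n, 1 ≤ n → ∀ w, D n w ≤ X ^ n)
    {f : (Fin N → ℂ) → (Fin N → ℂ)} (hf : AnalyticAt ℂ f 0) (f0 : f 0 = 0)
    (hdf : fderiv ℂ f 0 = diagL lam) :
    ∃ φ : (Fin N → ℂ) → (Fin N → ℂ), AnalyticAt ℂ φ 0 ∧ φ 0 = 0 ∧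
      fderiv ℂ φ 0 = ContinuousLinearMap.id ℂ (Fin N → ℂ) ∧
      ∀ᶠ z in 𝓝 0, f (φ z) = φ (diagL lam z) := by
  obtain ⟨q, hq⟩ := hf
  have hqr : 0 < q.radius := by
    obtain ⟨r, hr⟩ := hq
    exact hr.r_pos.trans_le hr.r_le
  have hp := radius_pos q h hX hqr
  set p := lin lam q with hpdef
  have hps : HasFPowerSeriesAt p.sum p 0 := ⟨_, p.hasFPowerSeriesOnBall hp⟩
  have p0 : p.sum 0 = 0 := by
    have := hps.coeff_zero (fun _ => 0)
    rw [← this, hpdef, lin_zero]; rfl
  have hdp : fderiv ℂ p.sum 0 = ContinuousLinearMap.id ℂ (Fin N → ℂ) := by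
    rw [hps.fderiv_eq, hpdef, lin_one]; simp
  have h0 : ∀ v, q 0 v = 0 := fun v => by rw [hq.coeff_zero v, f0]
  have h1 : q 1 = (continuousMultilinearCurryFin1 ℂ (Fin N → ℂ) (Fin N → ℂ)).symm
      (diagL lam) := by
    rw [← hdf, hq.fderiv_eq]; simp
  have hcomp := comp_lin lam q h0 h1 (fun n hn w j => h.ne hn w j)
  refine ⟨p.sum, hps.analyticAt, p0, hdp, ?_⟩
  have A : HasFPowerSeriesAt (f ∘ p.sum) (q.comp p) 0 := by
    refine HasFPowerSeriesAt.comp ?_ hps
    rw [p0]; exact hq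
  have B : HasFPowerSeriesAt (p.sum ∘ diagL lam) (p.compContinuousLinearMap (diagL lam)) 0 := by
    refine HasFPowerSeriesAt.compContinuousLinearMap ?_
    rw [map_zero]; exact hps
  rw [hpdef, hcomp] at A
  filter_upwards [A.eventually_hasSum, B.eventually_hasSum] with z hA hB
  have := hA.unique hB
  simpa using this

/-- **Core theorem** (diagonalizable differential). -/
theorem core' (h : Weight lam D) {X : ℝ} (hX : ∀ n, 1 ≤ n → ∀ w, D n w ≤ X ^ n)
    {f : (Fin N → ℂ) → (Fin N → ℂ)} (hf : AnalyticAt ℂ f 0) (f0 : f 0 = 0)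
    (T : (Fin N → ℂ) ≃L[ℂ] (Fin N → ℂ))
    (hdf : ∀ v, fderiv ℂ f 0 (T v) = T (fun i => lam i * v i)) :
    ∃ φ : (Fin N → ℂ) → (Fin N → ℂ), AnalyticAt ℂ φ 0 ∧ φ 0 = 0 ∧
      fderiv ℂ φ 0 = ContinuousLinearMap.id ℂ (Fin N → ℂ) ∧
      ∀ᶠ z in 𝓝 0, f (φ z) = φ (fderiv ℂ f 0 z) := by
  have hfd : HasFDerivAt f (fderiv ℂ f 0) 0 := hf.differentiableAt.hasFDerivAt
  have hTl : ∀ x, HasFDerivAt (fun v => T v) (T : (Fin N → ℂ) →L[ℂ] (Fin N → ℂ)) x :=
    fun x => T.hasFDerivAt
  have hTs : ∀ x, HasFDerivAt (fun v => T.symm v) (T.symm : (Fin N → ℂ) →L[ℂ] (Fin N → ℂ)) x :=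
    fun x => T.symm.hasFDerivAt
  set g : (Fin N → ℂ) → (Fin N → ℂ) := fun v => T.symm (f (T v)) with hg
  have hTan : ∀ x, AnalyticAt ℂ (fun v => T v) x :=
    fun x => (T : (Fin N → ℂ) →L[ℂ] (Fin N → ℂ)).analyticAt x
  have hTsan : ∀ x, AnalyticAt ℂ (fun v => T.symm v) x :=
    fun x => (T.symm : (Fin N → ℂ) →L[ℂ] (Fin N → ℂ)).analyticAt x
  have hgan : AnalyticAt ℂ g 0 := by
    refine AnalyticAt.fun_comp (hTsan _) ?_
    refine AnalyticAt.fun_comp_of_eq hf (hTan 0) (by simp)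
  have g0 : g 0 = 0 := by simp [hg, f0]
  have hgd : fderiv ℂ g 0 = diagL lam := by
    have h1 : HasFDerivAt (fun v => f (T v))
        ((fderiv ℂ f 0).comp (T : (Fin N → ℂ) →L[ℂ] (Fin N → ℂ))) 0 := by
      refine HasFDerivAt.comp (g := f) 0 ?_ (hTl 0)
      simpa using hfd
    have h2 : HasFDerivAt g ((T.symm : (Fin N → ℂ) →L[ℂ] (Fin N → ℂ)).comp
        ((fderiv ℂ f 0).comp (T : (Fin N → ℂ) →L[ℂ] (Fin N → ℂ)))) 0 :=
      HasFDerivAt.comp (g := fun v => T.symm v) 0 (hTs _) h1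
    rw [h2.fderiv]
    ext1 v
    simp only [ContinuousLinearMap.comp_apply, ContinuousLinearEquiv.coe_coe]
    rw [hdf v, T.symm_apply_apply]
    ext i
    simp
  obtain ⟨ψ, hψ, ψ0, hdψ, hconj⟩ := core h hX hgan g0 hgd
  refine ⟨fun z => T (ψ (T.symm z)), ?_, by simp [ψ0], ?_, ?_⟩
  · refine AnalyticAt.fun_comp (hTan _) ?_
    exact AnalyticAt.fun_comp_of_eq hψ (hTsan 0) (by simp)
  · have h1 : HasFDerivAt ψ (ContinuousLinearMap.id ℂ (Fin N → ℂ)) 0 := by
      rw [← hdψ]; exact hψ.differentiableAt.hasFDerivAt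
    have h2 : HasFDerivAt (fun v => ψ (T.symm v))
        ((ContinuousLinearMap.id ℂ (Fin N → ℂ)).comp
          (T.symm : (Fin N → ℂ) →L[ℂ] (Fin N → ℂ))) 0 := by
      refine HasFDerivAt.comp (g := ψ) 0 ?_ (hTs 0)
      simpa using h1
    have h3 : HasFDerivAt (fun v => T (ψ (T.symm v)))
        ((T : (Fin N → ℂ) →L[ℂ] (Fin N → ℂ)).comp
        ((ContinuousLinearMap.id ℂ (Fin N → ℂ)).comp
          (T.symm : (Fin N → ℂ) →L[ℂ] (Fin N → ℂ)))) 0 :=
      HasFDerivAt.comp (g := fun v => T v) 0 (hTl _) h2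
    rw [h3.fderiv]
    ext1 v
    simp
  · have hc : Tendsto (fun z => T.symm z) (𝓝 0) (𝓝 0) := by
      simpa using T.symm.continuous.tendsto 0
    filter_upwards [hc.eventually hconj] with z hz
    have e1 : T (g (ψ (T.symm z))) = f (T (ψ (T.symm z))) := by simp [hg]
    rw [← e1, hz]
    congr 2
    have e2 := hdf (T.symm z)
    rw [T.apply_symm_apply] at e2
    rw [e2, T.symm_apply_apply]
    ext i
    simp

end Helper43.Brj
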