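import Pool.Agent.Helper43.Brj.Arith
import Pool.Agent.Helper43.Brj.Comb

open Finset

namespace Helper43.Brj

/-- The dyadic level of `‖ω^b - z‖`. -/
noncomputable def lev (z : ℂ) (b : ℕ) : ℕ :=
  ((range (6 * b)).filter fun p => ‖om ^ b - z‖ < (1 / 2 : ℝ) ^ p).card

theorem lev_spec {z : ℂ} {b : ℕ} (h : 1 / (64 : ℝ) ^ b ≤ ‖om ^ b - z‖) :
    (1 / 2 : ℝ) ^ lev z b ≤ ‖om ^ b - z‖ := by
  have h64 : (1 / 2 : ℝ) ^ (6 * b) = 1 / 64 ^ b := by
    rw [pow_mul, ← one_div_pow]; norm_num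
  have hex : ∃ p, (1 / 2 : ℝ) ^ p ≤ ‖om ^ b - z‖ := ⟨6 * b, by rw [h64]; exact h⟩
  classical
  let p0 := Nat.find hex
  have hp0 : (1 / 2 : ℝ) ^ p0 ≤ ‖om ^ b - z‖ := Nat.find_spec hex
  have hle : p0 ≤ 6 * b := Nat.find_min' hex (by rw [h64]; exact h)
  have hset : ((range (6 * b)).filter fun p => ‖om ^ b - z‖ < (1 / 2 : ℝ) ^ p) = range p0 := by
    ext p
    simp only [mem_filter, mem_range]
    constructor
    · rintro ⟨_, h2⟩
      by_contra hcon
      rw [not_lt] at hcon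
      have : (1 / 2 : ℝ) ^ p ≤ (1 / 2) ^ p0 :=
        pow_le_pow_of_le_one (by norm_num) (by norm_num) hcon
      linarith
    · intro hp
      refine ⟨by omega, ?_⟩
      have := Nat.find_min hex hp
      rwa [not_le] at this
  rw [lev, hset, card_range]
  exact hp0

theorem sep_of_close {z : ℂ} {a b : ℕ} (hab : a < b) {δ : ℝ}
    (ha : ‖om ^ a - z‖ < δ) (hb : ‖om ^ b - z‖ < δ) : 1 / ((b - a : ℕ) : ℝ) ≤ 2 * δ := by
  have h1 := om_sub_one (b := b - a) (by omega)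
  refine h1.trans ?_
  have h2 : ‖om ^ (b - a) - 1‖ = ‖om ^ b - om ^ a‖ := by
    have : om ^ b - om ^ a = om ^ a * (om ^ (b - a) - 1) := by
      rw [mul_sub, mul_one, ← pow_add]; congr 2; omega
    rw [this, norm_mul, norm_pow, norm_om, one_pow, one_mul]
  rw [h2]
  calc ‖om ^ b - om ^ a‖ = ‖(om ^ b - z) - (om ^ a - z)‖ := by congr 1; ring
    _ ≤ ‖om ^ b - z‖ + ‖om ^ a - z‖ := norm_sub_le _ _
    _ ≤ 2 * δ := by linarith

theorem card_close (z : ℂ) (n p : ℕ) :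
    (((Icc 1 n).filter fun b => ‖om ^ b - z‖ < (1 / 2 : ℝ) ^ (p + 1)).card) ≤
      n / 2 ^ p + 1 := by
  refine card_separated _ n (fun b hb => ?_) (Nat.one_le_two_pow) ?_
  · simp only [mem_filter, mem_Icc] at hb; exact hb.1.2
  · intro a ha b hb hab
    simp only [mem_filter, mem_Icc] at ha hb
    have h1 := sep_of_close hab ha.2 hb.2
    have h2 : (0 : ℝ) < ((b - a : ℕ) : ℝ) := by exact_mod_cast (by omega : 0 < b - a)
    have h3 : 2 * (1 / 2 : ℝ) ^ (p + 1) = 1 / 2 ^ p := by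
      rw [pow_succ, one_div_pow]; ring
    rw [h3, div_le_div_iff₀ h2 (by positivity)] at h1
    have : ((2 ^ p : ℕ) : ℝ) ≤ ((b - a : ℕ) : ℝ) := by push_cast at h1 ⊢; linarith
    exact_mod_cast this

theorem sum_div_pow_le (n Q : ℕ) : ∑ q ∈ range Q, n / 2 ^ q ≤ 2 * n := by
  have h : ((∑ q ∈ range Q, n / 2 ^ q : ℕ) : ℝ) ≤ 2 * n := by
    push_cast
    calc ∑ q ∈ range Q, ((n / 2 ^ q : ℕ) : ℝ) ≤ ∑ q ∈ range Q, (n : ℝ) * (1 / 2) ^ q := by
          refine sum_le_sum fun q _ => ?_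
          refine Nat.cast_div_le.trans (le_of_eq ?_)
          push_cast
          rw [one_div_pow]; ring
      _ = n * ∑ q ∈ range Q, (1 / 2 : ℝ) ^ q := by rw [mul_sum]
      _ ≤ n * 2 := by
          gcongr
          have := sum_geometric_two_le Q
          simpa using this
      _ = 2 * n := by ring
  exact_mod_cast h

theorem sum_lev_le (z : ℂ) (n : ℕ) : ∑ b ∈ Icc 1 n, lev z b ≤ 9 * n := by
  have h1 : ∑ b ∈ Icc 1 n, lev z b ≤
      ∑ b ∈ Icc 1 n, ∑ p ∈ range (6 * n + 1), if ‖om ^ b - z‖ < (1 / 2 : ℝ) ^ p then 1 else 0 := by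
    refine sum_le_sum fun b hb => ?_
    rw [lev, card_filter]
    refine sum_le_sum_of_subset ?_
    intro p hp
    simp only [mem_range, mem_Icc] at hp hb ⊢
    omega
  refine h1.trans ?_
  rw [sum_comm, sum_range_succ']
  have h2 : ∑ p ∈ range (6 * n), ∑ b ∈ Icc 1 n,
      (if ‖om ^ b - z‖ < (1 / 2 : ℝ) ^ (p + 1) then 1 else 0) ≤
      ∑ p ∈ range (6 * n), (n / 2 ^ p + 1) := by
    refine sum_le_sum fun p _ => ?_
    rw [← card_filter]
    exact card_close z n p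
  have h3 : ∑ b ∈ Icc 1 n, (if ‖om ^ b - z‖ < (1 / 2 : ℝ) ^ 0 then 1 else 0) ≤ n := by
    rw [← card_filter]
    refine (card_filter_le _ _).trans ?_
    simp
  rw [sum_add_distrib] at h2
  have h4 := sum_div_pow_le n (6 * n)
  simp only [sum_const, card_range, smul_eq_mul, mul_one] at h2
  omega

/-! ### The pure words -/

/-- The cost of a pure word. -/
noncomputable def tau (n : ℕ) : ℕ := 1 + lev 1 (n - 1)

theorem brec_mono {σ τ : ℕ → ℕ} (h : ∀ n, σ n ≤ τ n) (n : ℕ) : brec σ n ≤ brec τ n := by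
  induction n using Nat.strong_induction_on with | _ n ih
  by_cases hn : n ≤ 1
  · rw [brec_le_one _ hn]; exact Nat.zero_le _
  · obtain ⟨a, b, ha, hb, hab, he⟩ := brec_exists σ (n := n) (by omega)
    have h1 := brec_add τ ha hb
    have h2 := ih a (by omega)
    have h3 := ih b (by omega)
    have h4 := h n
    rw [hab] at h1
    omega

open Classical in
theorem brec_tau_le (n : ℕ) : brec tau n ≤ (n - 1) + ∑ p ∈ range (6 * n),
    brec (fun k => if (2 ≤ k ∧ ‖om ^ (k - 1) - 1‖ < (1 / 2 : ℝ) ^ p) then 1 else 0) n := by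
  induction n using Nat.strong_induction_on with | _ n ih
  by_cases hn : n ≤ 1
  · rw [brec_le_one _ hn]; exact Nat.zero_le _
  obtain ⟨a, b, ha, hb, hab, he⟩ := brec_exists tau (n := n) (by omega)
  have h2 := ih a (by omega)
  have h3 := ih b (by omega)
  rw [he]
  have h4 : tau n = 1 + ∑ p ∈ range (6 * (n - 1)),
      if ‖om ^ (n - 1) - 1‖ < (1 / 2 : ℝ) ^ p then 1 else 0 := by
    rw [tau, lev, card_filter]
  have h5 : ∑ p ∈ range (6 * (n - 1)),
      (if ‖om ^ (n - 1) - 1‖ < (1 / 2 : ℝ) ^ p then 1 else 0) ≤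
      ∑ p ∈ range (6 * n),
      (if (2 ≤ n ∧ ‖om ^ (n - 1) - 1‖ < (1 / 2 : ℝ) ^ p) then 1 else 0) := by
    calc _ ≤ ∑ p ∈ range (6 * n), (if ‖om ^ (n - 1) - 1‖ < (1 / 2 : ℝ) ^ p then 1 else 0) := by
          refine sum_le_sum_of_subset ?_
          intro p hp
          simp only [mem_range] at hp ⊢
          omega
      _ ≤ _ := by
          refine sum_le_sum fun p _ => ?_
          split_ifs with h1 h2 h2
          · exact le_rfl
          · exact absurd ⟨by omega, h1⟩ h2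
          · exact Nat.zero_le _
          · exact le_rfl
  have h6 : ∀ x : ℕ, x < n → ∑ p ∈ range (6 * x),
      brec (fun k => if (2 ≤ k ∧ ‖om ^ (k - 1) - 1‖ < (1 / 2 : ℝ) ^ p) then 1 else 0) x ≤
      ∑ p ∈ range (6 * n),
      brec (fun k => if (2 ≤ k ∧ ‖om ^ (k - 1) - 1‖ < (1 / 2 : ℝ) ^ p) then 1 else 0) x := by
    intro x hx
    refine sum_le_sum_of_subset ?_
    intro p hp
    simp only [mem_range] at hp ⊢
    omega
  have h7 : ∑ p ∈ range (6 * n),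
      brec (fun k => if (2 ≤ k ∧ ‖om ^ (k - 1) - 1‖ < (1 / 2 : ℝ) ^ p) then 1 else 0) a +
      ∑ p ∈ range (6 * n),
      brec (fun k => if (2 ≤ k ∧ ‖om ^ (k - 1) - 1‖ < (1 / 2 : ℝ) ^ p) then 1 else 0) b +
      ∑ p ∈ range (6 * n),
      (if (2 ≤ n ∧ ‖om ^ (n - 1) - 1‖ < (1 / 2 : ℝ) ^ p) then 1 else 0) ≤
      ∑ p ∈ range (6 * n),
      brec (fun k => if (2 ≤ k ∧ ‖om ^ (k - 1) - 1‖ < (1 / 2 : ℝ) ^ p) then 1 else 0) n := by
    rw [← sum_add_distrib, ← sum_add_distrib]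
    refine sum_le_sum fun p _ => ?_
    have := brec_add (fun k => if (2 ≤ k ∧ ‖om ^ (k - 1) - 1‖ < (1 / 2 : ℝ) ^ p) then 1 else 0)
      ha hb
    rw [hab] at this
    exact this
  have h8 := h6 a (by omega)
  have h9 := h6 b (by omega)
  omega

open Classical in
theorem brec_S_le (p n : ℕ) :
    ((brec (fun k => if (2 ≤ k ∧ ‖om ^ (k - 1) - 1‖ < (1 / 2 : ℝ) ^ p) then 1 else 0) n : ℕ) : ℝ)
      ≤ 4 * n * (1 / 2) ^ p := by
  have hg : (0 : ℝ) < 2 ^ p / 2 := by positivity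
  have := count (fun k => 2 ≤ k ∧ ‖om ^ (k - 1) - 1‖ < (1 / 2 : ℝ) ^ p) hg ?_ ?_ n
  · refine this.trans (le_of_eq ?_)
    rw [one_div_pow]; field_simp; ring
  · rintro k ⟨hk, hlt⟩
    have h1 := om_sub_one (b := k - 1) (by omega)
    have h2 : (0 : ℝ) < ((k - 1 : ℕ) : ℝ) := by exact_mod_cast (by omega : 0 < k - 1)
    have h3 : 1 / ((k - 1 : ℕ) : ℝ) ≤ 1 / 2 ^ p := by
      rw [← one_div_pow]; linarith
    rw [div_le_div_iff₀ h2 (by positivity)] at h3
    have h4 : ((k - 1 : ℕ) : ℝ) ≤ k := by exact_mod_cast Nat.sub_le _ _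
    have h5 : (0 : ℝ) < 2 ^ p := by positivity
    linarith
  · rintro k m ⟨hk, hlt⟩ ⟨hm, hltm⟩ hmk
    have h1 := sep_of_close (z := 1) (a := m - 1) (b := k - 1) (by omega) hltm hlt
    have h2 : (0 : ℝ) < ((k - 1 - (m - 1) : ℕ) : ℝ) := by
      exact_mod_cast (by omega : 0 < k - 1 - (m - 1))
    have h3 : 2 * (1 / 2 : ℝ) ^ p = 1 / (2 ^ p / 2) := by
      rw [one_div_pow]; field_simp
    rw [h3, div_le_div_iff₀ h2 hg] at h1
    have h4 : ((k - 1 - (m - 1) : ℕ) : ℝ) = (k : ℝ) - m := by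
      have : (k - 1 - (m - 1) : ℕ) = k - m := by omega
      rw [this, Nat.cast_sub hmk.le]
    rw [h4] at h1
    linarith

open Classical in
/-- Siegel's lemma for the rotation `ω`. -/
theorem brec_tau_linear (n : ℕ) : brec tau n ≤ 17 * (n - 1) := by
  by_cases hn : n ≤ 1
  · rw [brec_le_one _ hn]; exact Nat.zero_le _
  have h1 := brec_tau_le n
  have h2 : ((brec tau n : ℕ) : ℝ) ≤ ((n - 1 : ℕ) : ℝ) + 8 * n := by
    have h3 : ((brec tau n : ℕ) : ℝ) ≤ ((n - 1 + ∑ p ∈ range (6 * n),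
      brec (fun k => if (2 ≤ k ∧ ‖om ^ (k - 1) - 1‖ < (1 / 2 : ℝ) ^ p) then 1 else 0) n : ℕ) : ℝ) := by
      exact_mod_cast h1
    refine h3.trans ?_
    push_cast
    have h4 : ∑ p ∈ range (6 * n),
      ((brec (fun k => if (2 ≤ k ∧ ‖om ^ (k - 1) - 1‖ < (1 / 2 : ℝ) ^ p) then 1 else 0) n : ℕ) : ℝ) ≤ ∑ p ∈ range (6 * n), 4 * n * (1 / 2 : ℝ) ^ p :=
      sum_le_sum fun p _ => brec_S_le p n
    rw [← mul_sum] at h4
    have h5 := sum_geometric_two_le (6 * n)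
    have h6 : 4 * (n : ℝ) * ∑ i ∈ range (6 * n), (1 / 2 : ℝ) ^ i ≤ 4 * n * 2 := by
      gcongr
    linarith
  have h3 : brec tau n ≤ (n - 1) + 8 * n := by exact_mod_cast h2
  omega

end Helper43.Brj
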