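import Pool.Agent.Helper43.Brj.Core
import Pool.Agent.Helper43.Brj.Levels

open Finset

namespace Helper43.Brj

variable {N : ℕ}

/-- The eigenvalues of the example. -/
noncomputable def lam3 (N : ℕ) (i : Fin N) : ℂ :=
  if i.val = 0 then om else if i.val = 1 then nu / 2 else 1 / 2

/-- The number of letters of modulus `1 / 2`. -/
def sw {n : ℕ} (w : Fin n → Fin N) : ℕ := (univ.filter fun k => (w k).val ≠ 0).card

theorem sw_eq_sum {n : ℕ} (w : Fin n → Fin N) :
    sw w = ∑ k, if (w k).val ≠ 0 then 1 else 0 := by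
  rw [sw, card_filter]

theorem sum_sw {n : ℕ} (c : Composition n) (w : Fin n → Fin N) :
    ∑ i, sw (w ∘ c.embedding i) = sw w := by
  simp_rw [sw_eq_sum]
  rw [← c.blocksFinEquiv.sum_comp, Fintype.sum_sigma]
  rfl

/-- The cost of a word with one letter of modulus `1 / 2`. -/
noncomputable def cost (b : ℕ) : ℕ := 1 + lev 1 b + lev nu b + lev nu⁻¹ b

noncomputable def TT (n : ℕ) : ℕ := ∑ b ∈ Icc 1 (n - 1), cost b

theorem TT_le (n : ℕ) : TT n ≤ 28 * (n - 1) := by
  have h1 := sum_lev_le 1 (n - 1)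
  have h2 := sum_lev_le nu (n - 1)
  have h3 := sum_lev_le nu⁻¹ (n - 1)
  have h4 : TT n = (n - 1) + ∑ b ∈ Icc 1 (n - 1), lev 1 b + ∑ b ∈ Icc 1 (n - 1), lev nu b +
      ∑ b ∈ Icc 1 (n - 1), lev nu⁻¹ b := by
    simp only [TT, cost, sum_add_distrib]
    simp
  omega

theorem TT_mono {m n : ℕ} (h : m ≤ n) : TT m ≤ TT n := by
  unfold TT
  refine sum_le_sum_of_subset ?_
  intro b hb
  simp only [mem_Icc] at hb ⊢
  omega

theorem TT_succ {n : ℕ} (hn : 2 ≤ n) : TT n = TT (n - 1) + cost (n - 1) := by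
  obtain ⟨m, rfl⟩ : ∃ m, n = m + 2 := ⟨n - 2, by omega⟩
  unfold TT
  rw [show m + 2 - 1 = m + 1 by omega, show m + 1 - 1 = m by omega,
    Finset.sum_Icc_succ_top (by omega)]

/-- The exponents of the weights. -/
noncomputable def ex (n : ℕ) (w : Fin n → Fin N) : ℕ :=
  if sw w = 0 then brec tau n else if sw w = 1 then 17 * (n - 1) + TT n else 45 * (n - 1)

theorem ex_le (n : ℕ) (w : Fin n → Fin N) : ex n w ≤ 45 * (n - 1) := by
  unfold ex
  split_ifs
  · have := brec_tau_linear n; omega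
  · have := TT_le n; omega
  · exact le_rfl

/-! ### Lower bounds for the divisors -/

theorem norm_lam3 (i : Fin N) : ‖lam3 N i‖ = if i.val ≠ 0 then 1 / 2 else 1 := by
  unfold lam3
  by_cases h0 : i.val = 0
  · simp [h0, norm_om]
  · by_cases h1 : i.val = 1
    · simp [h1, norm_nu]
    · simp [h0, h1]

theorem norm_prod_lam3 {n : ℕ} (w : Fin n → Fin N) : ‖∏ i, lam3 N (w i)‖ = (1 / 2) ^ sw w := by
  rw [norm_prod]
  simp_rw [norm_lam3]
  rw [Finset.prod_ite, prod_const, prod_const, one_pow, mul_one, sw]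

theorem le_pow64 {b : ℕ} (hb : 1 ≤ b) : 1 / (64 : ℝ) ^ b ≤ 1 / b := by
  have h : b ≤ 64 ^ b := (Nat.lt_pow_self (by norm_num : 1 < 64)).le
  have hb' : (0 : ℝ) < b := by exact_mod_cast hb
  have h' : (b : ℝ) ≤ 64 ^ b := by exact_mod_cast h
  gcongr

theorem lev_one_spec {b : ℕ} (hb : 1 ≤ b) : (1 / 2 : ℝ) ^ lev 1 b ≤ ‖om ^ b - 1‖ :=
  lev_spec ((le_pow64 hb).trans (om_sub_one hb))

theorem lev_nu_spec {b : ℕ} (hb : 1 ≤ b) : (1 / 2 : ℝ) ^ lev nu b ≤ ‖om ^ b - nu‖ :=
  lev_spec (om_sub_nu_ge hb)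

theorem nu_ne_zero : nu ≠ 0 := by
  intro h
  have := norm_nu
  rw [h, norm_zero] at this
  norm_num at this

theorem norm_sub_inv (b : ℕ) : ‖om ^ b - nu⁻¹‖ = ‖nu * om ^ b - 1‖ := by
  have h1 : nu * om ^ b - 1 = nu * (om ^ b - nu⁻¹) := by
    rw [mul_sub, mul_inv_cancel₀ nu_ne_zero]
  rw [h1, norm_mul, norm_nu, one_mul]

theorem lev_inv_spec {b : ℕ} (hb : 1 ≤ b) : (1 / 2 : ℝ) ^ lev nu⁻¹ b ≤ ‖nu * om ^ b - 1‖ := by
  rw [← norm_sub_inv]
  exact lev_spec (by rw [norm_sub_inv]; exact nu_om_sub_one_ge hb)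

theorem half_pow_le {a b : ℕ} (h : a ≤ b) : (1 / 2 : ℝ) ^ b ≤ (1 / 2) ^ a :=
  pow_le_pow_of_le_one (by norm_num) (by norm_num) h

theorem div0 {n : ℕ} (hn : 2 ≤ n) (w : Fin n → Fin N) (hw : sw w = 0) (j : Fin N) :
    (1 / 2 : ℝ) ^ tau n ≤ ‖∏ i, lam3 N (w i) - lam3 N j‖ := by
  have h1 : ∏ i, lam3 N (w i) = om ^ n := by
    rw [sw, card_eq_zero, filter_eq_empty_iff] at hw
    have : ∀ i, lam3 N (w i) = om := by
      intro i
      have := hw (mem_univ i)
      simp only [not_not] at this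
      simp [lam3, this]
    simp [this]
  rw [h1]
  by_cases hj : j.val = 0
  · have h2 : lam3 N j = om := by simp [lam3, hj]
    rw [h2]
    have h3 : om ^ n - om = om * (om ^ (n - 1) - 1) := by
      rw [mul_sub, mul_one, ← pow_succ']; congr 2; omega
    rw [h3, norm_mul, norm_om, one_mul]
    refine (half_pow_le ?_).trans (lev_one_spec (by omega))
    unfold tau; omega
  · have h2 : ‖lam3 N j‖ = 1 / 2 := by rw [norm_lam3, if_pos hj]
    have h3 : ‖om ^ n‖ = 1 := by rw [norm_pow, norm_om, one_pow]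
    have h4 := norm_sub_norm_le (om ^ n) (lam3 N j)
    have h5 : (1 / 2 : ℝ) ^ tau n ≤ (1 / 2) ^ 1 := half_pow_le (by unfold tau; omega)
    linarith

theorem lam3_cases {j : Fin N} (hj : j.val ≠ 0) : lam3 N j = nu / 2 ∨ lam3 N j = 1 / 2 := by
  unfold lam3
  rw [if_neg hj]
  split_ifs
  · exact Or.inl rfl
  · exact Or.inr rfl

theorem div1 {n : ℕ} (hn : 2 ≤ n) (w : Fin n → Fin N) (hw : sw w = 1) (j : Fin N) :
    (1 / 2 : ℝ) ^ cost (n - 1) ≤ ‖∏ i, lam3 N (w i) - lam3 N j‖ := by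
  have hnorm := norm_prod_lam3 w
  rw [hw, pow_one] at hnorm
  by_cases hj : j.val = 0
  · have h2 : ‖lam3 N j‖ = 1 := by rw [norm_lam3, if_neg (by simpa using hj)]
    have h4 := norm_sub_norm_le (lam3 N j) (∏ i, lam3 N (w i))
    rw [norm_sub_rev] at h4
    have h5 : (1 / 2 : ℝ) ^ cost (n - 1) ≤ (1 / 2) ^ 1 := half_pow_le (by unfold cost; omega)
    linarith
  · obtain ⟨k0, hk0⟩ := card_eq_one.1 hw
    have hk0' : (w k0).val ≠ 0 := by
      have : k0 ∈ univ.filter fun k => (w k).val ≠ 0 := by rw [hk0]; exact mem_singleton_self _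
      exact (mem_filter.1 this).2
    have hothers : ∀ k, k ≠ k0 → lam3 N (w k) = om := by
      intro k hk
      have : k ∉ univ.filter fun k => (w k).val ≠ 0 := by rw [hk0]; simpa using hk
      simp only [mem_filter, mem_univ, true_and, not_not] at this
      simp [lam3, this]
    have hprod : ∏ i, lam3 N (w i) = lam3 N (w k0) * om ^ (n - 1) := by
      rw [← mul_prod_erase univ _ (mem_univ k0)]
      congr 1
      rw [prod_congr rfl (fun k hk => hothers k (ne_of_mem_erase hk)), prod_const,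
        card_erase_of_mem (mem_univ _), card_univ, Fintype.card_fin]
    rw [hprod]
    have hb : 1 ≤ n - 1 := by omega
    have hA : (1 / 2 : ℝ) ^ cost (n - 1) ≤ 1 / 2 * ‖om ^ (n - 1) - 1‖ := by
      have h1 := lev_one_spec hb
      have h2 : (1 / 2 : ℝ) ^ cost (n - 1) ≤ (1 / 2) ^ (lev 1 (n - 1) + 1) :=
        half_pow_le (by unfold cost; omega)
      rw [pow_succ] at h2
      linarith
    have hB : (1 / 2 : ℝ) ^ cost (n - 1) ≤ 1 / 2 * ‖om ^ (n - 1) - nu‖ := by
      have h1 := lev_nu_spec hb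
      have h2 : (1 / 2 : ℝ) ^ cost (n - 1) ≤ (1 / 2) ^ (lev nu (n - 1) + 1) :=
        half_pow_le (by unfold cost; omega)
      rw [pow_succ] at h2
      linarith
    have hC : (1 / 2 : ℝ) ^ cost (n - 1) ≤ 1 / 2 * ‖nu * om ^ (n - 1) - 1‖ := by
      have h1 := lev_inv_spec hb
      have h2 : (1 / 2 : ℝ) ^ cost (n - 1) ≤ (1 / 2) ^ (lev nu⁻¹ (n - 1) + 1) :=
        half_pow_le (by unfold cost; omega)
      rw [pow_succ] at h2
      linarith
    rcases lam3_cases hk0' with e1 | e1 <;> rcases lam3_cases hj with e2 | e2 <;> rw [e1, e2]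
    · have : nu / 2 * om ^ (n - 1) - nu / 2 = nu / 2 * (om ^ (n - 1) - 1) := by ring
      rw [this, norm_mul, norm_div, norm_nu]
      simpa using hA
    · have : nu / 2 * om ^ (n - 1) - 1 / 2 = 1 / 2 * (nu * om ^ (n - 1) - 1) := by ring
      rw [this, norm_mul]
      simpa using hC
    · have : 1 / 2 * om ^ (n - 1) - nu / 2 = 1 / 2 * (om ^ (n - 1) - nu) := by ring
      rw [this, norm_mul]
      simpa using hB
    · have : (1 / 2 : ℂ) * om ^ (n - 1) - 1 / 2 = 1 / 2 * (om ^ (n - 1) - 1) := by ring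
      rw [this, norm_mul]
      simpa using hA

theorem div2 {n : ℕ} (w : Fin n → Fin N) (hw : 2 ≤ sw w) (j : Fin N) :
    (1 / 2 : ℝ) ^ 2 ≤ ‖∏ i, lam3 N (w i) - lam3 N j‖ := by
  have hnorm := norm_prod_lam3 w
  have h1 : (1 / 2 : ℝ) ^ sw w ≤ (1 / 2) ^ 2 := half_pow_le hw
  have h2 : 1 / 2 ≤ ‖lam3 N j‖ := by rw [norm_lam3]; split_ifs <;> norm_num
  have h4 := norm_sub_norm_le (lam3 N j) (∏ i, lam3 N (w i))
  rw [norm_sub_rev] at h4
  norm_num at h1 ⊢
  linarith

/-! ### The weight -/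

theorem sum_blocks_sub {n : ℕ} (c : Composition n) :
    ∑ i, (c.blocksFun i - 1) + c.length = n := by
  have h1 : ∑ i, (c.blocksFun i - 1) + ∑ _i : Fin c.length, 1 = ∑ i, c.blocksFun i := by
    rw [← sum_add_distrib]
    refine sum_congr rfl fun i _ => ?_
    have := c.one_le_blocksFun i
    omega
  rw [c.sum_blocksFun] at h1
  simpa using h1

theorem exists_cost {n : ℕ} (hn : 2 ≤ n) (w : Fin n → Fin N) (c : Composition n)
    (hc : 1 < c.length) (j : Fin N) :
    ∃ t : ℕ, (1 / 2 : ℝ) ^ t ≤ ‖∏ i, lam3 N (w i) - lam3 N j‖ ∧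
      ∑ i, ex (c.blocksFun i) (w ∘ c.embedding i) + t ≤ ex n w := by
  have hsum := sum_sw c w
  have hblk := sum_blocks_sub c
  have hlt : ∀ i, c.blocksFun i < n := fun i => blocksFun_lt (by omega) hc i
  by_cases h0 : sw w = 0
  · refine ⟨tau n, div0 hn w h0 j, ?_⟩
    have h1 : ∀ i, sw (w ∘ c.embedding i) = 0 := by
      intro i
      have := Finset.single_le_sum (f := fun i => sw (w ∘ c.embedding i))
        (fun _ _ => Nat.zero_le _) (mem_univ i)
      omega
    have h2 : ∀ i, ex (c.blocksFun i) (w ∘ c.embedding i) = brec tau (c.blocksFun i) := by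
      intro i; rw [ex, if_pos (h1 i)]
    simp_rw [h2]
    rw [ex, if_pos h0]
    exact brec_composition tau c hc
  by_cases h1 : sw w = 1
  · refine ⟨cost (n - 1), div1 hn w h1 j, ?_⟩
    have h2 : ∀ i, ex (c.blocksFun i) (w ∘ c.embedding i) ≤
        17 * (c.blocksFun i - 1) + sw (w ∘ c.embedding i) * TT (n - 1) := by
      intro i
      have hi := Finset.single_le_sum (f := fun i => sw (w ∘ c.embedding i))
        (fun _ _ => Nat.zero_le _) (mem_univ i)
      rw [hsum, h1] at hi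
      rcases Nat.le_one_iff_eq_zero_or_eq_one.1 hi with h | h
      · rw [ex, if_pos h, h]
        have := brec_tau_linear (c.blocksFun i)
        omega
      · rw [ex, if_neg (by omega), if_pos h, h]
        have := TT_mono (m := c.blocksFun i) (n := n - 1) (by have := hlt i; omega)
        omega
    have h3 := sum_le_sum fun i (_ : i ∈ (univ : Finset (Fin c.length))) => h2 i
    rw [sum_add_distrib, ← mul_sum, ← sum_mul, hsum, h1, one_mul] at h3
    rw [ex, if_neg h0, if_pos h1, TT_succ hn]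
    omega
  · refine ⟨2, div2 w (by omega) j, ?_⟩
    have h2 := sum_le_sum fun i (_ : i ∈ (univ : Finset (Fin c.length))) =>
      ex_le (c.blocksFun i) (w ∘ c.embedding i)
    rw [← mul_sum] at h2
    rw [ex, if_neg h0, if_neg h1]
    omega

theorem weight3 (N : ℕ) : Weight (lam3 N) (fun n w => (2 : ℝ) ^ ex n w) where
  pos n w := by positivity
  one w := one_le_pow₀ (by norm_num)
  step n hn w c hc j := by
    obtain ⟨t, ht1, ht2⟩ := exists_cost hn w c hc j
    rw [prod_pow_eq_pow_sum]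
    calc (2 : ℝ) ^ (∑ i, ex (c.blocksFun i) (w ∘ c.embedding i))
        = (1 / 2) ^ t * 2 ^ (∑ i, ex (c.blocksFun i) (w ∘ c.embedding i) + t) := by
          rw [pow_add, one_div_pow]; field_simp
      _ ≤ ‖∏ i, lam3 N (w i) - lam3 N j‖ * 2 ^ ex n w := by
          gcongr
          norm_num

theorem weight3_le (n : ℕ) (w : Fin n → Fin N) : (2 : ℝ) ^ ex n w ≤ (2 ^ 45) ^ n := by
  rw [← pow_mul]
  refine pow_le_pow_right₀ (by norm_num) ?_
  have := ex_le n w
  omega

end Helper43.Brj
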